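import Pool.Agent.Q282.NF.Sum

/-!
# The local means over the rational primes
-/

set_option autoImplicit false

namespace Q282.NF

open Finset NumberField IsDedekindDomain
open Pool.Agent.H921R2.TatePole (below deg nm nm_eq)
open Pool.Agent.TH894.NE (Per mean mean_const mean_mono)

variable {K : Type} [Field K] [NumberField K]

lemma fib_card (p : Nat.Primes) : (Fintype.card {v : HeightOneSpectrum (𝓞 K) // below v = p} : ℝ) ≤ Module.finrank ℚ K := by
  exact_mod_cast Pool.Agent.H921R2.TatePole.fiber_card_le (K := K) p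

lemma fib_le (f : ℕ) (hf : 1 ≤ f) (p : Nat.Primes) (C : 𝓞 K × 𝓞 K × 𝓞 K) :
    |fib f p C| ≤ 6 * Module.finrank ℚ K / Real.sqrt (p : ℕ) := by
  unfold fib
  refine (abs_sum_le_sum_abs _ _).trans ?_
  have hp0 : (0 : ℝ) < ((p : ℕ) : ℝ) := by exact_mod_cast p.prop.pos
  have h1 : ∀ v : {v : HeightOneSpectrum (𝓞 K) // below v = p}, |if deg v.1 = f then hv v.1 C else 0| ≤ 6 / Real.sqrt (p : ℕ) := by
    rintro ⟨v, hvp⟩
    show |if deg v = f then hv v C else 0| ≤ _
    split_ifs with h
    · refine (hv_le v C).trans ?_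
      refine div_le_div_of_nonneg_left (by norm_num) (Real.sqrt_pos.2 hp0) (Real.sqrt_le_sqrt ?_)
      rw [norm_eq, hvp, h]
      exact_mod_cast Nat.le_self_pow (by omega) (p : ℕ)
    · rw [abs_zero]
      positivity
  refine (sum_le_sum fun v _ => h1 v).trans ?_
  rw [sum_const, card_univ, nsmul_eq_mul, mul_comm 6, mul_div_assoc]
  exact mul_le_mul_of_nonneg_right (fib_card p) (by positivity)

lemma hd_le (f : ℕ) (hf : 1 ≤ f) (p : ℕ) (hp : p.Prime) (C : 𝓞 K × 𝓞 K × 𝓞 K) :
    |hd f p C| ≤ 6 * Module.finrank ℚ K / Real.sqrt p := by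
  unfold hd
  rw [dif_pos hp]
  exact fib_le f hf ⟨p, hp⟩ C

lemma hd_per (f r d : ℕ) (b : Fin d → 𝓞 K) (N : Fin (r + 3) → Fin d → ℤ) (p : ℕ) (hp : p.Prime) :
    Per p (fun n : Fin ((r + 3) * d) → ℕ => hd f p (family r (combine b (fun i j => N i j + n (finProdFinEquiv (i, j)))))) := by
  intro n
  show hd f p _ = hd f p _
  unfold hd
  rw [dif_pos hp, dif_pos hp]
  unfold fib
  refine sum_congr rfl fun v _ => ?_
  split_ifs with h
  · have h1 := hv_per r d b N v.1 n
    have h2 : (below v.1 : ℕ) = p := by rw [v.2]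
    rw [h2] at h1
    exact h1
  · rfl

/-- the number of the primes of degree one -/
noncomputable def nu (K : Type) [Field K] [NumberField K] (p : ℕ) : ℝ := (Nat.card (𝓞 K →+* ZMod p) : ℝ)

lemma nu_eq (p : Nat.Primes) : nu K p = (Pool.Agent.H921R2.TatePole.R K p : ℝ) := by
  unfold nu
  rw [Pool.Agent.H921R2.TatePole.R_eq_hc]
  rfl

lemma nu_sum (K : Type) [Field K] [NumberField K] : ∃ M : ℝ, 0 ≤ M ∧ ∀ X : ℕ, 3 ≤ X →
    |∑ p ∈ BP.PP X, nu K p / p - Real.log (Real.log X)| ≤ M := by
  obtain ⟨C1, h1⟩ := Pool.Agent.H474R2.PG.homs_lower K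
  obtain ⟨C2, h2⟩ := Pool.Agent.H474R2.GE.homs_upper K
  refine ⟨max |C1| |C2|, le_max_of_le_left (abs_nonneg _), fun X hX => ?_⟩
  have hX' : (3 : ℝ) ≤ X := by exact_mod_cast hX
  have h3 := h1 X hX'
  have h4 := h2 X hX'
  have e : Pool.Agent.H474R2.PG.PR (X : ℝ) = BP.PP X := by
    unfold Pool.Agent.H474R2.PG.PR BP.PP
    rw [Nat.floor_natCast]
  rw [e] at h3 h4
  have e2 : ∑ p ∈ BP.PP X, nu K p / p = ∑ p ∈ BP.PP X, (Nat.card (𝓞 K →+* ZMod p) : ℝ) / (p : ℝ) := rfl
  rw [e2, abs_le]
  have h5 := le_abs_self C1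
  have h6 := le_abs_self C2
  have h7 := le_max_left |C1| |C2|
  have h8 := le_max_right |C1| |C2|
  constructor <;> linarith

/-- the local means -/
noncomputable def mu (K : Type) [Field K] [NumberField K] (r f p : ℕ) : ℝ := if f = 1 then (r + 1 / 2) * (nu K p / p) else 0

theorem hd_mean (K : Type) [Field K] [NumberField K] (r : ℕ) (hr : r ≤ 2) : ∃ B : ℝ, 0 ≤ B ∧ ∀ f : ℕ, 1 ≤ f →
    ∀ p : ℕ, p.Prime → ∀ (d : ℕ) (b : Fin d → 𝓞 K), (∀ x : 𝓞 K, ∃ a : Fin d → ℤ, x = ∑ j, (a j : 𝓞 K) * b j) →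
    ∀ N : Fin (r + 3) → Fin d → ℤ,
    |mean ((r + 3) * d) p (fun n => hd f p (family r (combine b (fun i j => N i j + n (finProdFinEquiv (i, j)))))) - mu K r f p| ≤
      B / (p : ℝ) ^ (3 / 2 : ℝ) := by
  classical
  obtain ⟨C, hC0, hC⟩ := hv_mean r hr
  obtain ⟨D, hD⟩ : ∃ D : ℝ, D = Module.finrank ℚ K := ⟨_, rfl⟩
  have hD0 : 0 ≤ D := by rw [hD]; positivity
  have hr' : (r : ℝ) ≤ 2 := by exact_mod_cast hr
  have hr0 : (0 : ℝ) ≤ r := Nat.cast_nonneg r
  refine ⟨D * (C + 3) + 72 * D, by positivity, ?_⟩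
  intro f hf p hp d b hb N
  have hp0 : (0 : ℝ) < p := by exact_mod_cast hp.pos
  have hp1 : (1 : ℝ) ≤ p := by exact_mod_cast hp.one_lt.le
  have hp32 : 0 < (p : ℝ) ^ (3 / 2 : ℝ) := by positivity
  have hnu : nu K p ≤ D := by
    have h1 := nu_eq (K := K) ⟨p, hp⟩
    have h2 := Pool.Agent.H921R2.TatePole.R_le (K := K) ⟨p, hp⟩
    have h3 : nu K p = (Pool.Agent.H921R2.TatePole.R K ⟨p, hp⟩ : ℝ) := h1
    rw [h3, hD]
    exact_mod_cast h2
  have hnu0 : 0 ≤ nu K p := by unfold nu; positivity
  rcases lt_or_ge p 5 with h5 | h5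
  · -- small primes
    have h1 : |mean ((r + 3) * d) p (fun n => hd f p (family r (combine b (fun i j => N i j + n (finProdFinEquiv (i, j))))))| ≤
        6 * D := by
      have hbd : ∀ n : Fin ((r + 3) * d) → ℕ,
          |hd f p (family r (combine b (fun i j => N i j + n (finProdFinEquiv (i, j)))))| ≤ 6 * D := by
        intro n
        refine (hd_le f hf p hp _).trans ?_
        rw [← hD, div_le_iff₀ (Real.sqrt_pos.2 hp0)]
        have : 1 ≤ Real.sqrt p := Real.one_le_sqrt.2 hp1
        nlinarith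
      rw [abs_le]
      constructor
      · have h1 := mean_mono (d := (r + 3) * d) (q := p) (F := fun _ => -(6 * D))
          (G := fun n => hd f p (family r (combine b (fun i j => N i j + n (finProdFinEquiv (i, j))))))
          fun n => (abs_le.1 (hbd n)).1
        rw [mean_const _ p hp.one_lt.le] at h1
        exact h1
      · have h1 := mean_mono (d := (r + 3) * d) (q := p) (G := fun _ => 6 * D)
          (F := fun n => hd f p (family r (combine b (fun i j => N i j + n (finProdFinEquiv (i, j))))))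
          fun n => (abs_le.1 (hbd n)).2
        rw [mean_const _ p hp.one_lt.le] at h1
        exact h1
    have h2 : |mu K r f p| ≤ 3 * D := by
      unfold mu
      split_ifs
      · rw [abs_of_nonneg (by positivity)]
        have h3 : nu K p / p ≤ D := by
          rw [div_le_iff₀ hp0]
          nlinarith
        have h4 : 0 ≤ nu K p / p := by positivity
        nlinarith
      · rw [abs_zero]
        positivity
    have h3 : (p : ℝ) ^ (3 / 2 : ℝ) ≤ 8 := by
      have h4 : (p : ℝ) ≤ 4 := by exact_mod_cast (by omega : p ≤ 4)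
      calc (p : ℝ) ^ (3 / 2 : ℝ) ≤ (4 : ℝ) ^ (3 / 2 : ℝ) := Real.rpow_le_rpow hp0.le h4 (by norm_num)
        _ = ((2 : ℝ) ^ (2 : ℝ)) ^ (3 / 2 : ℝ) := by norm_num
        _ = 8 := by
            rw [← Real.rpow_mul (by norm_num)]
            norm_num
    rw [le_div_iff₀ hp32]
    have h4 := abs_sub (mean ((r + 3) * d) p (fun n => hd f p (family r (combine b (fun i j => N i j + n (finProdFinEquiv (i, j)))))))
      (mu K r f p)
    have h6 : |mean ((r + 3) * d) p (fun n => hd f p (family r (combine b (fun i j => N i j + n (finProdFinEquiv (i, j)))))) -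
        mu K r f p| ≤ 9 * D := by linarith
    calc _ ≤ 9 * D * 8 := mul_le_mul h6 h3 hp32.le (by positivity)
      _ ≤ _ := by nlinarith [mul_nonneg hD0 hC0]
  · -- large primes
    obtain ⟨P, hP⟩ : ∃ P : Nat.Primes, (P : ℕ) = p := ⟨⟨p, hp⟩, rfl⟩
    have hhd : ∀ C', hd f p C' = fib (K := K) f P C' := by
      intro C'
      unfold hd
      rw [dif_pos hp]
      have : (⟨p, hp⟩ : Nat.Primes) = P := Subtype.ext hP.symm
      rw [this]
    have hmean : mean ((r + 3) * d) p (fun n => hd f p (family r (combine b (fun i j => N i j + n (finProdFinEquiv (i, j)))))) =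
        ∑ v : {v : HeightOneSpectrum (𝓞 K) // below v = P}, if deg v.1 = f then
          mean ((r + 3) * d) p (fun n => hv v.1 (family r (combine b (fun i j => N i j + n (finProdFinEquiv (i, j)))))) else 0 := by
      have e1 : (fun n : Fin ((r + 3) * d) → ℕ => hd f p (family r (combine b (fun i j => N i j + n (finProdFinEquiv (i, j)))))) =
          fun n => ∑ v : {v : HeightOneSpectrum (𝓞 K) // below v = P},
            (if deg v.1 = f then hv v.1 (family r (combine b (fun i j => N i j + n (finProdFinEquiv (i, j))))) else 0) := by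
        funext n
        rw [hhd]
        rfl
      rw [e1, BP.mean_sum]
      refine sum_congr rfl fun v _ => ?_
      split_ifs
      · rfl
      · exact mean_const _ p hp.one_lt.le 0
    have hmu : mu K r f p = ∑ v : {v : HeightOneSpectrum (𝓞 K) // below v = P}, if deg v.1 = f then
        (if f = 1 then ((r : ℝ) + 1 / 2) / p else 0) else 0 := by
      unfold mu
      split_ifs with h1
      · have h2 : nu K p = (Pool.Agent.H921R2.TatePole.R K P : ℝ) := by
          rw [← hP]
          exact nu_eq P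
        rw [h2]
        unfold Pool.Agent.H921R2.TatePole.R
        rw [← sum_filter, sum_const, nsmul_eq_mul, h1]
        ring
      · simp
    have hterm : ∀ v : {v : HeightOneSpectrum (𝓞 K) // below v = P}, |(if deg v.1 = f then
          mean ((r + 3) * d) p (fun n => hv v.1 (family r (combine b (fun i j => N i j + n (finProdFinEquiv (i, j)))))) else 0) -
        (if deg v.1 = f then (if f = 1 then ((r : ℝ) + 1 / 2) / p else 0) else 0)| ≤ (C + 3) / (p : ℝ) ^ (3 / 2 : ℝ) := by
      rintro ⟨v, hvP⟩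
      show |(if deg v = f then _ else 0) - _| ≤ _
      have hvp : (below v : ℕ) = p := by rw [hvP, hP]
      by_cases hdf : deg v = f
      · rw [if_pos hdf, if_pos hdf]
        have h1 := hC K v (by rw [hvp]; exact h5) d b hb N
        rw [hvp, norm_eq, hvp, hdf] at h1
        by_cases hf1 : f = 1
        · rw [if_pos hf1]
          rw [hf1, pow_one] at h1
          refine h1.trans (div_le_div_of_nonneg_right (by linarith) hp32.le)
        · rw [if_neg hf1, sub_zero]
          have h2 : (p : ℝ) ^ (3 / 2 : ℝ) ≤ ((p ^ f : ℕ) : ℝ) := by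
            have h3 : (p : ℝ) ^ (3 / 2 : ℝ) ≤ (p : ℝ) ^ (f : ℝ) := by
              refine Real.rpow_le_rpow_of_exponent_le hp1 ?_
              have : (2 : ℝ) ≤ f := by exact_mod_cast (by omega : 2 ≤ f)
              linarith
            rw [Real.rpow_natCast] at h3
            push_cast
            exact h3
          have hpf1 : (1 : ℝ) ≤ ((p ^ f : ℕ) : ℝ) := by exact_mod_cast Nat.one_le_pow _ _ hp.pos
          have h3 : ((r : ℝ) + 1 / 2) / ((p ^ f : ℕ) : ℝ) ≤ 3 / (p : ℝ) ^ (3 / 2 : ℝ) :=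
            div_le_div₀ (by norm_num) (by linarith) hp32 h2
          have h4 : C / ((p ^ f : ℕ) : ℝ) ^ (3 / 2 : ℝ) ≤ C / (p : ℝ) ^ (3 / 2 : ℝ) := by
            refine div_le_div_of_nonneg_left hC0 hp32 (h2.trans ?_)
            calc ((p ^ f : ℕ) : ℝ) = ((p ^ f : ℕ) : ℝ) ^ (1 : ℝ) := (Real.rpow_one _).symm
              _ ≤ _ := Real.rpow_le_rpow_of_exponent_le hpf1 (by norm_num)
          have h5 : 0 ≤ ((r : ℝ) + 1 / 2) / ((p ^ f : ℕ) : ℝ) := by positivity
          have h6 := abs_sub_abs_le_abs_sub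
            (mean ((r + 3) * d) p (fun n => hv v (family r (combine b (fun i j => N i j + n (finProdFinEquiv (i, j)))))))
            (((r : ℝ) + 1 / 2) / ((p ^ f : ℕ) : ℝ))
          rw [abs_of_nonneg h5] at h6
          rw [add_div]
          linarith
      · rw [if_neg hdf, if_neg hdf, sub_zero, abs_zero]
        positivity
    rw [hmean, hmu, ← sum_sub_distrib]
    refine (abs_sum_le_sum_abs _ _).trans ((sum_le_sum fun v _ => hterm v).trans ?_)
    rw [sum_const, card_univ, nsmul_eq_mul, ← mul_div_assoc]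
    refine div_le_div_of_nonneg_right ?_ hp32.le
    have h1 := fib_card (K := K) P
    rw [← hD] at h1
    have h2 := mul_le_mul_of_nonneg_right h1 (by linarith : 0 ≤ C + 3)
    nlinarith

end Q282.NF
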