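import Pool.Agent.Q282.NF.Grp

/-!
# The rank of the curves with marked points
-/

set_option autoImplicit false
set_option linter.unusedSectionVars false

namespace Q282.NF

open WeierstrassCurve Q282.BP

section

variable {O K : Type} [CommRing O] [IsDomain O] [IsIntegrallyClosed O] [Field K] [CharZero K] [Algebra O K] [IsFractionRing O K]
  [DecidableEq K]

lemma crv_disc (C : O × O × O) : (crvK K C).Δ = 16 * algebraMap O K (dis C) := by
  unfold WeierstrassCurve.Δ WeierstrassCurve.b₂ WeierstrassCurve.b₄ WeierstrassCurve.b₆ WeierstrassCurve.b₈ crvK dis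
  simp only [map_sub, map_add, map_mul, map_pow, map_ofNat]
  ring

lemma alg_ne {a : O} (h : a ≠ 0) : algebraMap O K a ≠ 0 := by
  intro h0
  apply h
  apply IsFractionRing.injective O K
  rw [h0, map_zero]

lemma crv_ns (C : O × O × O) (hC : dis C ≠ 0) (x y : O) (h : y ^ 2 = cub C x) :
    (crvK K C).Nonsingular (algebraMap O K x) (algebraMap O K y) := by
  rw [← Affine.equation_iff_nonsingular_of_Δ_ne_zero (W := crvK K C) (by
    show (crvK K C).Δ ≠ 0
    rw [crv_disc]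
    exact mul_ne_zero (by norm_num) (alg_ne hC)), Affine.equation_iff]
  have h1 : (algebraMap O K y) ^ 2 = algebraMap O K x ^ 3 + algebraMap O K C.1 * algebraMap O K x ^ 2 +
      algebraMap O K C.2.1 * algebraMap O K x + algebraMap O K C.2.2 := by
    have := congrArg (algebraMap O K) h
    unfold cub at this
    simp only [map_add, map_mul, map_pow] at this
    exact this
  unfold crvK
  linear_combination h1

/-- one marked point -/
theorem rank_one (t : Fin 4 → O) (h0 : ∀ n : O, cub (fam 1 t) n ≠ 0) (h1 : ∀ n : O, quart (fam 1 t) (t 0) (t 1) n ≠ 0) :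
    ((1 : ℕ) : Cardinal) ≤ Module.rank ℤ (crvK K (fam 1 t)).Point := by
  have hd : dis (fam 1 t) ≠ 0 := fun h => by
    obtain ⟨n, hn⟩ := root_of_dis K _ h
    exact h0 n hn
  have hns := crv_ns (K := K) (fam 1 t) hd (t 0) (t 1) (by
    show t 1 ^ 2 = t 0 ^ 3 + (t 2 - t 0) * t 0 ^ 2 + (t 3 - t 0 * t 2) * t 0 + (t 1 ^ 2 - t 0 * t 3)
    ring)
  refine rank1 (tors _ h0) (Affine.Point.some _ _ hns) fun R hR => ?_
  obtain ⟨n, hn⟩ := half _ _ _ hns R hR
  exact h1 n hn

/-- two marked points -/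
theorem rank_two (t : Fin 5 → O) (h0 : ∀ n : O, cub (fam 2 t) n ≠ 0)
    (h1 : ∀ n : O, quart (fam 2 t) (t 0) (t 3 * t 0 + t 4) n ≠ 0)
    (h2 : ∀ n : O, quart (fam 2 t) (t 1) (t 3 * t 1 + t 4) n ≠ 0)
    (h3 : ∀ n : O, quart (fam 2 t) (t 2) (t 3 * t 2 + t 4) n ≠ 0) :
    ((2 : ℕ) : Cardinal) ≤ Module.rank ℤ (crvK K (fam 2 t)).Point := by
  have hd : dis (fam 2 t) ≠ 0 := fun h => by
    obtain ⟨n, hn⟩ := root_of_dis K _ h
    exact h0 n hn
  have hcub : ∀ x : O, cub (fam 2 t) x = (x - t 0) * (x - t 1) * (x - t 2) + (t 3 * x + t 4) ^ 2 := by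
    intro x
    show x ^ 3 + (t 3 ^ 2 - (t 0 + t 1 + t 2)) * x ^ 2 + (t 0 * t 1 + t 0 * t 2 + t 1 * t 2 + 2 * t 3 * t 4) * x +
      (t 4 ^ 2 - t 0 * t 1 * t 2) = _
    ring
  have hns0 := crv_ns (K := K) (fam 2 t) hd (t 0) (t 3 * t 0 + t 4) (by
    rw [hcub]
    ring)
  have hns1 := crv_ns (K := K) (fam 2 t) hd (t 1) (t 3 * t 1 + t 4) (by
    rw [hcub]
    ring)
  have hns2 := crv_ns (K := K) (fam 2 t) hd (t 2) (-(t 3 * t 2 + t 4)) (by
    rw [hcub]
    ring)
  -- the abscissas are different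
  have hne : algebraMap O K (t 0) ≠ algebraMap O K (t 1) := by
    intro h
    have h4 : t 0 = t 1 := IsFractionRing.injective O K h
    apply h3 (-t 3)
    show (-t 3) ^ 4 - (2 * (t 3 ^ 2 - (t 0 + t 1 + t 2)) + 6 * t 2) * (-t 3) ^ 2 - 8 * (t 3 * t 2 + t 4) * (-t 3) +
      ((t 3 ^ 2 - (t 0 + t 1 + t 2)) ^ 2 - 2 * (t 3 ^ 2 - (t 0 + t 1 + t 2)) * t 2 - 3 * t 2 ^ 2 -
        4 * (t 0 * t 1 + t 0 * t 2 + t 1 * t 2 + 2 * t 3 * t 4)) = 0
    rw [h4]
    ring
  have hsum : (Affine.Point.some _ _ hns0 : (crvK K (fam 2 t)).Point) + Affine.Point.some _ _ hns1 = Affine.Point.some _ _ hns2 := by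
    rw [Affine.Point.add_of_X_ne hne]
    have hsl : (crvK K (fam 2 t)).slope (algebraMap O K (t 0)) (algebraMap O K (t 1)) (algebraMap O K (t 3 * t 0 + t 4))
        (algebraMap O K (t 3 * t 1 + t 4)) = algebraMap O K (t 3) := by
      rw [Affine.slope_of_X_ne hne, div_eq_iff (sub_ne_zero.2 hne)]
      simp only [map_add, map_mul]
      ring
    have hx : (crvK K (fam 2 t)).addX (algebraMap O K (t 0)) (algebraMap O K (t 1)) (algebraMap O K (t 3)) = algebraMap O K (t 2) := by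
      unfold Affine.addX
      have e1 : (crvK K (fam 2 t)).a₁ = 0 := rfl
      have e2 : (crvK K (fam 2 t)).a₂ = algebraMap O K (t 3 ^ 2 - (t 0 + t 1 + t 2)) := rfl
      rw [e1, e2]
      simp only [map_sub, map_add, map_pow]
      ring
    have hy : (crvK K (fam 2 t)).addY (algebraMap O K (t 0)) (algebraMap O K (t 1)) (algebraMap O K (t 3 * t 0 + t 4))
        (algebraMap O K (t 3)) = algebraMap O K (-(t 3 * t 2 + t 4)) := by
      unfold Affine.addY Affine.negAddY
      rw [crv_negY, hx]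
      simp only [map_neg, map_add, map_mul]
      ring
    rw [Affine.Point.some.injEq]
    refine ⟨?_, ?_⟩
    · rw [hsl, hx]
    · rw [hsl, hy]
  refine rank2 (tors _ h0) (Affine.Point.some _ _ hns0) (Affine.Point.some _ _ hns1) ?_ ?_ ?_
  · intro R hR
    obtain ⟨n, hn⟩ := half _ _ _ hns0 R hR
    exact h1 n hn
  · intro R hR
    obtain ⟨n, hn⟩ := half _ _ _ hns1 R hR
    exact h2 n hn
  · intro R hR
    rw [hsum] at hR
    obtain ⟨n, hn⟩ := half _ _ _ hns2 R hR
    rw [quart_neg] at hn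
    exact h3 (-n) hn

lemma elliptic_of (C : O × O × O) (h : ∀ n : O, cub C n ≠ 0) : (crvK K C).IsElliptic := by
  have hd : dis C ≠ 0 := fun h' => by
    obtain ⟨n, hn⟩ := root_of_dis K _ h'
    exact h n hn
  refine ⟨?_⟩
  rw [crv_disc, isUnit_iff_ne_zero]
  exact mul_ne_zero (by norm_num) (alg_ne hd)

end

end Q282.NF
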