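import Pool.Agent.Q282.NF.Sieve
import Pool.Agent.Q282.NF.Rank
import Pool.Agent.Q282.BP.Dens2

/-!
# The rank of almost all curves with marked points over a number field
-/

set_option autoImplicit false

namespace Q282.NF

open Finset NumberField

lemma mapC_cub {R S : Type} [CommRing R] [CommRing S] (π : R →+* S) (C : R × R × R) (x : R) :
    BP.cub (mapC π C) (π x) = π (BP.cub C x) := by
  unfold mapC BP.cub
  simp only [map_sub, map_add, map_mul, map_pow, map_ofNat]

lemma mapC_quart {R S : Type} [CommRing R] [CommRing S] (π : R →+* S) (C : R × R × R) (x y s : R) :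
    BP.quart (mapC π C) (π x) (π y) (π s) = π (BP.quart C x y s) := by
  unfold mapC BP.quart
  simp only [map_sub, map_add, map_mul, map_pow, map_ofNat]

open Classical in
/-- the curve is elliptic, of rank at least `r` -/
def Ok (K : Type) [Field K] [NumberField K] (r : ℕ) (t : Fin (r + 3) → 𝓞 K) : Prop :=
  (curve (family r t)).IsElliptic ∧ (r : Cardinal) ≤ Module.rank ℤ (curve (family r t)).toAffine.Point

open Classical in
/-- almost all curves of the families are elliptic curves of rank at least `r` -/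
theorem rank_nf (K : Type) [Field K] [NumberField K] (r : ℕ) (hr : r ≤ 2) (A : ℝ) (hA : 0 < A) : ∃ C : ℝ, 0 ≤ C ∧
    ∀ (b : Fin (Module.finrank ℚ K) → 𝓞 K), (∀ x : 𝓞 K, ∃ a : Fin (Module.finrank ℚ K) → ℤ, x = ∑ j, (a j : 𝓞 K) * b j) →
    ∀ (T : ℝ) (X₀ : ℕ), 16 ≤ X₀ → (X₀ : ℝ) ≤ T → ∀ (N : Fin (r + 3) → Fin (Module.finrank ℚ K) → ℤ)
    (L : Fin (r + 3) → Fin (Module.finrank ℚ K) → ℕ), (∀ i j, T ≤ L i j) →
    ∀ E : Finset (Fin (r + 3) → Fin (Module.finrank ℚ K) → ℤ), E ⊆ box N L → (∀ n ∈ E, ¬ Ok K r (combine b n)) →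
    (E.card : ℝ) ≤ C * (∏ i, ∏ j, (L i j : ℝ)) * (Real.log (Real.log X₀)) ^ (-A) := by
  obtain ⟨C, hC, h⟩ := sieve_nf K r A hA
  refine ⟨4 * C, by positivity, ?_⟩
  intro b hb T X₀ hX₀ hXT N L hL E hE hEb
  have hX₀' : (16 : ℝ) ≤ X₀ := by exact_mod_cast hX₀
  have hlog1 : 1 < Real.log X₀ := by
    rw [Real.lt_log_iff_exp_lt (by linarith)]
    linarith [Real.exp_one_lt_three]
  obtain ⟨W, hW⟩ : ∃ W : ℝ, W = C * (∏ i, ∏ j, (L i j : ℝ)) * (Real.log (Real.log X₀)) ^ (-A) := ⟨_, rfl⟩
  have hW0 : 0 ≤ W := by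
    rw [hW]
    exact mul_nonneg (mul_nonneg hC (prod_nonneg fun i _ => prod_nonneg fun j _ => Nat.cast_nonneg _))
      (Real.rpow_nonneg (Real.log_pos hlog1).le _)
  have hW4 : 4 * C * (∏ i, ∏ j, (L i j : ℝ)) * (Real.log (Real.log X₀)) ^ (-A) = 4 * W := by
    rw [hW]
    ring
  rw [hW4]
  -- the polynomials with roots
  have hS : ∀ (R : ∀ (F : Type) [Field F], (Fin (r + 3) → F) → Prop),
      (∀ (F : Type) [Field F] [Fintype F], ringChar F ≠ 2 → 7 ≤ Fintype.card F →
      (((univ : Finset (Fin (r + 3) → F)).filter (R F)).card : ℝ) ≤ 15 / 16 * Fintype.card (Fin (r + 3) → F)) →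
      ((E.filter fun n => ∀ (F : Type) [Field F] (π : 𝓞 K →+* F), R F (fun i => π (combine b n i))).card : ℝ) ≤ W := by
    intro R hR
    rw [hW]
    refine h R hR b hb T X₀ hX₀ hXT N L hL _ ((filter_subset _ _).trans hE) ?_
    intro t ht
    exact (mem_filter.1 ht).2
  have hfin : ∀ (S : Finset (Finset (Fin (r + 3) → Fin (Module.finrank ℚ K) → ℤ))), S.card ≤ 4 → (∀ s ∈ S, (s.card : ℝ) ≤ W) →
      E ⊆ S.biUnion id → (E.card : ℝ) ≤ 4 * W := by
    intro S hS4 hSW hES
    have h1 : (E.card : ℝ) ≤ ((S.biUnion id).card : ℝ) := by exact_mod_cast card_le_card hES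
    have h2 : ((S.biUnion id).card : ℝ) ≤ ∑ s ∈ S, (s.card : ℝ) := by
      have := card_biUnion_le (s := S) (t := id)
      exact_mod_cast this
    have h3 : ∑ s ∈ S, (s.card : ℝ) ≤ ∑ _s ∈ S, W := sum_le_sum hSW
    rw [sum_const, nsmul_eq_mul] at h3
    have h4 : (S.card : ℝ) ≤ 4 := by exact_mod_cast hS4
    have h5 := mul_le_mul_of_nonneg_right h4 hW0
    linarith
  have hcub : ∀ t : Fin (r + 3) → 𝓞 K, (∃ n : 𝓞 K, BP.cub (BP.fam r t) n = 0) → ∀ (F : Type) [Field F] (π : 𝓞 K →+* F),
      ∃ s : F, BP.cub (BP.fam r (fun i => π (t i))) s = 0 := by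
    rintro t ⟨n, hn⟩ F _ π
    refine ⟨π n, ?_⟩
    rw [← mapC_fam, mapC_cub, hn, map_zero]
  have hquart : ∀ (t : Fin (r + 3) → 𝓞 K) (x y n : 𝓞 K), BP.quart (BP.fam r t) x y n = 0 → ∀ (F : Type) [Field F] (π : 𝓞 K →+* F),
      BP.quart (BP.fam r (fun i => π (t i))) (π x) (π y) (π n) = 0 := by
    intro t x y n hn F _ π
    rw [← mapC_fam, mapC_quart, hn, map_zero]
  have hell : ∀ t : Fin (r + 3) → 𝓞 K, (∀ n : 𝓞 K, BP.cub (BP.fam r t) n ≠ 0) → (curve (family r t)).IsElliptic := by
    intro t ht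
    rw [family_eq]
    exact elliptic_of (K := K) _ ht
  interval_cases r
  · refine hfin {E.filter fun n => ∀ (F : Type) [Field F] (π : 𝓞 K →+* F), ∃ s : F, BP.cub (BP.fam 0 (fun i => π (combine b n i))) s = 0}
      (by simp) ?_ ?_
    · intro s hs
      rw [mem_singleton] at hs
      rw [hs]
      exact hS (fun F _ t => ∃ s : F, BP.cub (BP.fam 0 t) s = 0) (fun F _ _ hF h7 => by
        have := BP.dens0 (K := F) h7
        convert this)
    · intro t ht
      rw [singleton_biUnion, id, mem_filter]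
      refine ⟨ht, hcub _ ?_⟩
      by_contra hno
      push Not at hno
      refine hEb t ht ⟨hell _ hno, ?_⟩
      simp
  · refine hfin {E.filter fun n => ∀ (F : Type) [Field F] (π : 𝓞 K →+* F), ∃ s : F, BP.cub (BP.fam 1 (fun i => π (combine b n i))) s = 0,
      E.filter fun n => ∀ (F : Type) [Field F] (π : 𝓞 K →+* F), ∃ s : F, BP.quart (BP.fam 1 (fun i => π (combine b n i)))
        (π (combine b n 0)) (π (combine b n 1)) s = 0}
      ((card_insert_le _ _).trans (by simp)) ?_ ?_
    · intro s hs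
      rw [mem_insert, mem_singleton] at hs
      rcases hs with hs | hs
      · rw [hs]
        exact hS (fun F _ t => ∃ s : F, BP.cub (BP.fam 1 t) s = 0) (fun F _ _ hF h7 => by
          have := BP.dens1 (K := F) h7
          convert this)
      · rw [hs]
        exact hS (fun F _ t => ∃ s : F, BP.quart (BP.fam 1 t) (t 0) (t 1) s = 0) (fun F _ _ hF h7 => by
          have := BP.dens1q (K := F) hF h7
          convert this)
    · intro t ht
      rw [biUnion_insert, singleton_biUnion, mem_union, id, id, mem_filter, mem_filter]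
      by_contra hno
      rw [not_or] at hno
      have h1 : ∀ n : 𝓞 K, BP.cub (BP.fam 1 (combine b t)) n ≠ 0 := by
        intro n hn
        exact hno.1 ⟨ht, hcub _ ⟨n, hn⟩⟩
      have h2 : ∀ n : 𝓞 K, BP.quart (BP.fam 1 (combine b t)) (combine b t 0) (combine b t 1) n ≠ 0 := by
        intro n hn
        exact hno.2 ⟨ht, fun F _ π => ⟨π n, hquart _ _ _ n hn F π⟩⟩
      exact hEb t ht ⟨hell _ h1, rank_one (K := K) (combine b t) h1 h2⟩
  · refine hfin {E.filter fun n => ∀ (F : Type) [Field F] (π : 𝓞 K →+* F), ∃ s : F, BP.cub (BP.fam 2 (fun i => π (combine b n i))) s = 0,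
      E.filter fun n => ∀ (F : Type) [Field F] (π : 𝓞 K →+* F), ∃ s : F, BP.quart (BP.fam 2 (fun i => π (combine b n i)))
        (π (combine b n 0)) (π (combine b n 3) * π (combine b n 0) + π (combine b n 4)) s = 0,
      E.filter fun n => ∀ (F : Type) [Field F] (π : 𝓞 K →+* F), ∃ s : F, BP.quart (BP.fam 2 (fun i => π (combine b n i)))
        (π (combine b n 1)) (π (combine b n 3) * π (combine b n 1) + π (combine b n 4)) s = 0,
      E.filter fun n => ∀ (F : Type) [Field F] (π : 𝓞 K →+* F), ∃ s : F, BP.quart (BP.fam 2 (fun i => π (combine b n i)))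
        (π (combine b n 2)) (π (combine b n 3) * π (combine b n 2) + π (combine b n 4)) s = 0}
      (Finset.card_le_four) ?_ ?_
    · intro s hs
      simp only [mem_insert, mem_singleton] at hs
      rcases hs with hs | hs | hs | hs
      · rw [hs]
        exact hS (fun F _ t => ∃ s : F, BP.cub (BP.fam 2 t) s = 0) (fun F _ _ hF h7 => by
          have := BP.dens2 (K := F) hF h7
          convert this)
      · rw [hs]
        exact hS (fun F _ t => ∃ s : F, BP.quart (BP.fam 2 t) (t 0) (t 3 * t 0 + t 4) s = 0) (fun F _ _ hF h7 => by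
          have := BP.dens2q (K := F) hF h7
          convert this)
      · rw [hs]
        exact hS (fun F _ t => ∃ s : F, BP.quart (BP.fam 2 t) (t 1) (t 3 * t 1 + t 4) s = 0) (fun F _ _ hF h7 => by
          have := BP.dens2q1 (K := F) hF h7
          convert this)
      · rw [hs]
        exact hS (fun F _ t => ∃ s : F, BP.quart (BP.fam 2 t) (t 2) (t 3 * t 2 + t 4) s = 0) (fun F _ _ hF h7 => by
          have := BP.dens2q2 (K := F) hF h7
          convert this)
    · intro t ht
      simp only [biUnion_insert, singleton_biUnion, mem_union, id, mem_filter]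
      by_contra hno
      simp only [not_or] at hno
      obtain ⟨n1, n2, n3, n4⟩ := hno
      have h1 : ∀ n : 𝓞 K, BP.cub (BP.fam 2 (combine b t)) n ≠ 0 := by
        intro n hn
        exact n1 ⟨ht, hcub _ ⟨n, hn⟩⟩
      have hq : ∀ i : Fin 5, ∀ n : 𝓞 K, BP.quart (BP.fam 2 (combine b t)) (combine b t i)
          (combine b t 3 * combine b t i + combine b t 4) n = 0 → ∀ (F : Type) [Field F] (π : 𝓞 K →+* F),
          BP.quart (BP.fam 2 (fun i => π (combine b t i))) (π (combine b t i))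
            (π (combine b t 3) * π (combine b t i) + π (combine b t 4)) (π n) = 0 := by
        intro i n hn F _ π
        have := hquart _ _ _ n hn F π
        rw [map_add, map_mul] at this
        exact this
      exact hEb t ht ⟨hell _ h1, rank_two (K := K) (combine b t) h1
        (fun n hn => n2 ⟨ht, fun F _ π => ⟨π n, hq 0 n hn F π⟩⟩)
        (fun n hn => n3 ⟨ht, fun F _ π => ⟨π n, hq 1 n hn F π⟩⟩)
        (fun n hn => n4 ⟨ht, fun F _ π => ⟨π n, hq 2 n hn F π⟩⟩)⟩

end Q282.NF
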