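import Pool.Agent.Q282.NF.Means

/-!
# The law of the products over a number field
-/

set_option autoImplicit false

namespace Q282.NF

open Finset NumberField IsDedekindDomain Filter
open Pool.Agent.H921R2.TatePole (below deg nm nm_eq)
open Pool.Agent.TH894.NE (Per mean)

section

variable {m d : ℕ}

/-- the sides as a function of one index -/
def flat {α : Type} (L : Fin m → Fin d → α) : Fin (m * d) → α := fun k => L (finProdFinEquiv.symm k).1 (finProdFinEquiv.symm k).2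

lemma flat_apply {α : Type} (L : Fin m → Fin d → α) (i : Fin m) (j : Fin d) : flat L (finProdFinEquiv (i, j)) = L i j := by
  unfold flat
  rw [Equiv.symm_apply_apply]

lemma prod_flat (L : Fin m → Fin d → ℕ) : ∏ k, ((flat L k : ℕ) : ℝ) = ∏ i, ∏ j, (L i j : ℝ) := by
  rw [← Fintype.prod_prod_type' (f := fun i j => (L i j : ℝ))]
  exact Fintype.prod_equiv finProdFinEquiv.symm _ _ fun k => rfl

lemma box_card_filter (N : Fin m → Fin d → ℤ) (L : Fin m → Fin d → ℕ) (P : (Fin m → Fin d → ℤ) → Prop) [DecidablePred P] :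
    ((box N L).filter P).card =
      ((BP.bx (flat L)).filter fun n => P (fun i j => N i j + (n (finProdFinEquiv (i, j)) : ℤ))).card := by
  symm
  refine card_bij (fun n _ => fun i j => N i j + (n (finProdFinEquiv (i, j)) : ℤ)) ?_ ?_ ?_
  · intro n hn
    rw [mem_filter, BP.mem_bx] at hn
    rw [mem_filter]
    refine ⟨?_, hn.2⟩
    unfold box
    rw [Fintype.mem_piFinset]
    intro i
    rw [Fintype.mem_piFinset]
    intro j
    rw [mem_Ico]
    have h1 := hn.1 (finProdFinEquiv (i, j))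
    rw [flat_apply] at h1
    constructor <;> omega
  · intro n _ n' _ h
    funext k
    have h1 := congrFun (congrFun h (finProdFinEquiv.symm k).1) (finProdFinEquiv.symm k).2
    simp only [Prod.mk.eta, Equiv.apply_symm_apply] at h1
    omega
  · intro t ht
    rw [mem_filter] at ht
    have hb : ∀ i j, N i j ≤ t i j ∧ t i j < N i j + L i j := by
      intro i j
      have h1 := ht.1
      unfold box at h1
      rw [Fintype.mem_piFinset] at h1
      have h2 := h1 i
      rw [Fintype.mem_piFinset] at h2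
      exact mem_Ico.1 (h2 j)
    have e : (fun i j => N i j + (((flat fun i j => (t i j - N i j).toNat) (finProdFinEquiv (i, j)) : ℕ) : ℤ)) = t := by
      funext i j
      rw [flat_apply]
      have := hb i j
      omega
    refine ⟨flat fun i j => (t i j - N i j).toNat, ?_, e⟩
    rw [mem_filter, BP.mem_bx]
    refine ⟨?_, ?_⟩
    · intro k
      have := hb (finProdFinEquiv.symm k).1 (finProdFinEquiv.symm k).2
      show (t (finProdFinEquiv.symm k).1 (finProdFinEquiv.symm k).2 - N (finProdFinEquiv.symm k).1 (finProdFinEquiv.symm k).2).toNat <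
        L (finProdFinEquiv.symm k).1 (finProdFinEquiv.symm k).2
      omega
    · rw [e]
      exact ht.2

end

lemma exists_min {s : Finset ℕ} (g : ℕ → ℝ) (hg : ∀ f, 0 < g f) : ∃ c : ℝ, 0 < c ∧ ∀ f ∈ s, c ≤ g f := by
  classical
  induction s using Finset.induction_on with
  | empty => exact ⟨1, one_pos, fun f hf => absurd hf (notMem_empty f)⟩
  | insert a s _ ih =>
    obtain ⟨c, hc, h⟩ := ih
    refine ⟨min c (g a), lt_min hc (hg a), fun f hf => ?_⟩
    rcases mem_insert.1 hf with h1 | h1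
    · rw [h1]
      exact min_le_right _ _
    · exact (min_le_left _ _).trans (h f h1)

/-- the roots are large -/
lemma rt_large (D : ℕ) (hD : 1 ≤ D) : ∀ᶠ X : ℕ in atTop, 16 ≤ rt D X ∧
    1 / 2 * Real.log (Real.log X) ≤ Real.log (Real.log (rt D X)) := by
  have h1 : ∀ᶠ X : ℕ in atTop, 2 * Real.log (2 * D) ≤ Real.log (Real.log X) := BP.loglog_tendsto.eventually_ge_atTop _
  filter_upwards [h1, eventually_ge_atTop (16 ^ D)] with X h1 h2
  have hD' : (1 : ℝ) ≤ D := by exact_mod_cast hD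
  have h3 : 16 ≤ rt D X := (le_rt hD).2 h2
  refine ⟨h3, ?_⟩
  obtain ⟨y, hy⟩ : ∃ y : ℕ, y = rt D X := ⟨_, rfl⟩
  rw [← hy] at h3 ⊢
  have hX16 : 16 ≤ X := (Nat.le_self_pow (by omega) 16).trans h2
  have h4 : X < (y + 1) ^ D := by
    by_contra hle
    push Not at hle
    have := (le_rt hD).2 hle
    omega
  have h5 : (X : ℝ) ≤ ((y : ℝ) ^ 2) ^ D := by
    have h6 : X ≤ (y ^ 2) ^ D := by
      refine h4.le.trans (Nat.pow_le_pow_left ?_ D)
      nlinarith
    exact_mod_cast h6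
  have hy16 : (16 : ℝ) ≤ y := by exact_mod_cast h3
  have hX0 : (16 : ℝ) ≤ X := by exact_mod_cast hX16
  have hlogX : 1 < Real.log X := by
    rw [Real.lt_log_iff_exp_lt (by linarith)]
    linarith [Real.exp_one_lt_three]
  have h6 : Real.log X ≤ 2 * D * Real.log y := by
    have := Real.log_le_log (by linarith) h5
    rw [Real.log_pow, Real.log_pow] at this
    push_cast at this
    linarith
  have hlogy : 0 < Real.log y := Real.log_pos (by linarith)
  have h7 : Real.log (Real.log X) ≤ Real.log (2 * D) + Real.log (Real.log y) := by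
    rw [← Real.log_mul (by positivity) hlogy.ne']
    exact Real.log_le_log (by linarith) h6
  linarith

/-- room -/
lemma room (δ D : ℝ) (hδ : 0 < δ) : ∀ᶠ X : ℕ in atTop,
    D * (Real.log (Real.log X)) ^ (1 / 2 + δ / 2) ≤ (Real.log (Real.log X)) ^ (1 / 2 + δ) := by
  have h1 : ∀ᶠ y : ℝ in atTop, D * y ^ (1 / 2 + δ / 2) ≤ y ^ (1 / 2 + δ) := by
    have h2 : Tendsto (fun y : ℝ => y ^ (δ / 2)) atTop atTop := tendsto_rpow_atTop (by positivity)
    filter_upwards [h2.eventually_ge_atTop D, eventually_ge_atTop (1 : ℝ)] with y hy hy1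
    have e1 : y ^ (1 / 2 + δ) = y ^ (δ / 2) * y ^ (1 / 2 + δ / 2) := by
      rw [← Real.rpow_add (by linarith)]
      congr 1
      ring
    rw [e1]
    exact mul_le_mul_of_nonneg_right hy (by positivity)
  exact BP.loglog_tendsto.eventually h1

open Classical in
/-- the law for the products over a number field -/
theorem law_nf (K : Type) [Field K] [NumberField K] (r : ℕ) (hr : r ≤ 2) (δ A : ℝ) (hδ : 0 < δ) (hA : 0 < A) :
    ∃ c : ℝ, 0 < c ∧ ∃ C : ℝ, 0 ≤ C ∧ ∀ (b : Fin (Module.finrank ℚ K) → 𝓞 K),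
    (∀ x : 𝓞 K, ∃ a : Fin (Module.finrank ℚ K) → ℤ, x = ∑ j, (a j : 𝓞 K) * b j) →
    ∀ (N : Fin (r + 3) → Fin (Module.finrank ℚ K) → ℤ) (L : Fin (r + 3) → Fin (Module.finrank ℚ K) → ℕ) (T : ℝ),
    0 < T → (∀ i j, T ≤ L i j) → ∀ X₀ : ℕ, 16 ≤ X₀ →
      (((box N L).filter fun n => ¬ ∀ X : ℕ, X₀ ≤ X → (X : ℝ) ≤ T ^ c →
        |Real.log (product (family r (combine b n)) X) - (r + 1 / 2) * Real.log (Real.log X)| ≤
          (Real.log (Real.log X)) ^ (1 / 2 + δ)).card : ℝ) ≤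
        C * (Real.log (Real.log X₀)) ^ (-A) * ∏ i, ∏ j, (L i j : ℝ) := by
  obtain ⟨D, hD⟩ : ∃ D : ℕ, D = Module.finrank ℚ K := ⟨_, rfl⟩
  have hD1 : 1 ≤ D := by
    rw [hD]
    exact Module.finrank_pos
  obtain ⟨B₁, hB₁0, hB₁⟩ := hd_mean K r hr
  obtain ⟨M₀, hM₀0, hM₀⟩ := nu_sum K
  obtain ⟨M, hM⟩ : ∃ M : ℝ, M = (r + 1 / 2) * M₀ := ⟨_, rfl⟩
  have hM0 : 0 ≤ M := by rw [hM]; positivity
  obtain ⟨κ, hκ⟩ : ∃ κ : ℕ → ℝ, κ = fun f => if f = 1 then (r + 1 / 2 : ℝ) else 0 := ⟨_, rfl⟩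
  have hmu : ∀ f : ℕ, ∀ X : ℕ, 3 ≤ X → |∑ p ∈ BP.PP X, mu K r f p - κ f * Real.log (Real.log X)| ≤ M := by
    intro f X hX
    rw [hκ]
    unfold mu
    show |_ - (if f = 1 then (r + 1 / 2 : ℝ) else 0) * _| ≤ M
    split_ifs with h1
    · rw [← mul_sum, ← mul_sub, abs_mul, abs_of_nonneg (by positivity : (0 : ℝ) ≤ r + 1 / 2), hM]
      exact mul_le_mul_of_nonneg_left (hM₀ X hX) (by positivity)
    · simpa using hM0
  have hlaw : ∀ f : ℕ, ∃ c : ℝ, 0 < c ∧ ∃ C : ℝ, 0 ≤ C ∧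
    ∀ (h : ℕ → (Fin ((r + 3) * D) → ℕ) → ℝ) (m : ℕ → ℝ),
    (∀ X : ℕ, 3 ≤ X → |∑ p ∈ BP.PP X, m p - κ f * Real.log (Real.log X)| ≤ M) →
    (∀ p : ℕ, p.Prime → Per p (h p)) →
    (∀ p : ℕ, p.Prime → |mean ((r + 3) * D) p (h p) - m p| ≤ B₁ / (p : ℝ) ^ (3 / 2 : ℝ)) →
    (∀ p : ℕ, p.Prime → ∀ n, |h p n| ≤ (6 * D) / Real.sqrt p) →
    ∀ (X₀ : ℕ) (T : ℝ), 16 ≤ X₀ → 0 < T → ∀ L : Fin ((r + 3) * D) → ℕ, (∀ i, T ≤ L i) →
      ∀ E : Finset (Fin ((r + 3) * D) → ℕ), E ⊆ BP.bx L →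
      (∀ n ∈ E, ∃ X : ℕ, X₀ ≤ X ∧ (X : ℝ) ≤ T ^ c ∧
        (Real.log (Real.log X)) ^ (1 / 2 + δ / 2) < |BP.sm h X n - κ f * Real.log (Real.log X)|) →
      (E.card : ℝ) ≤ C * (∏ i, (L i : ℝ)) * (Real.log (Real.log X₀)) ^ (-A) := fun f =>
    law_m (d := (r + 3) * D) (δ / 2) A (by positivity) hA (6 * D) B₁ (κ f) M (by positivity) hB₁0
  choose cf hcf Cf hCf hlawf using hlaw
  obtain ⟨c, hc, hcmin⟩ := exists_min (s := Icc 1 D) cf hcf
  obtain ⟨X₁, hX₁⟩ := eventually_atTop.1 (((rt_large D hD1).and (room δ D hδ)).and (eventually_ge_atTop 16))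
  have hX₁16 : 16 ≤ X₁ := (hX₁ X₁ le_rfl).2
  have hll : ∀ X : ℕ, 16 ≤ X → 0 < Real.log (Real.log X) := by
    intro X hX
    have h1 : (16 : ℝ) ≤ X := by exact_mod_cast hX
    have h3 : 1 < Real.log X := by
      rw [Real.lt_log_iff_exp_lt (by linarith)]
      linarith [Real.exp_one_lt_three]
    exact Real.log_pos h3
  have hllm : ∀ X Y : ℕ, 16 ≤ X → X ≤ Y → Real.log (Real.log X) ≤ Real.log (Real.log Y) := by
    intro X Y hX hXY
    have e1 : (16 : ℝ) ≤ X := by exact_mod_cast hX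
    have e2 : (X : ℝ) ≤ Y := by exact_mod_cast hXY
    exact Real.log_le_log (Real.log_pos (by linarith)) (Real.log_le_log (by linarith) e2)
  have hS0 : 0 ≤ ∑ f ∈ Icc 1 D, Cf f := sum_nonneg fun f _ => hCf f
  refine ⟨c, hc, (∑ f ∈ Icc 1 D, Cf f) * 2 ^ A + (Real.log (Real.log X₁)) ^ A, by
    have := hll X₁ hX₁16
    positivity, ?_⟩
  rw [← hD]
  intro b hb N L T hT0 hTL X₀ hX₀
  have hll0 := hll X₀ hX₀
  have hP0 : 0 < ∏ i, ∏ j, (L i j : ℝ) := prod_pos fun i _ => prod_pos fun j _ => hT0.trans_le (hTL i j)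
  obtain ⟨E, hE⟩ : ∃ E : Finset (Fin ((r + 3) * D) → ℕ), E = (BP.bx (flat L)).filter fun n => ¬ ∀ X : ℕ, X₀ ≤ X → (X : ℝ) ≤ T ^ c →
    |Real.log (product (family r (combine b (fun i j => N i j + (n (finProdFinEquiv (i, j)) : ℤ)))) X) -
      (r + 1 / 2) * Real.log (Real.log X)| ≤ (Real.log (Real.log X)) ^ (1 / 2 + δ) := ⟨_, rfl⟩
  rw [box_card_filter N L, ← hE]
  rcases lt_or_ge X₀ X₁ with hlt | hge
  · have h1 : (E.card : ℝ) ≤ ∏ i, ∏ j, (L i j : ℝ) := by
      have h2 := card_le_card (hE ▸ filter_subset _ _ : E ⊆ BP.bx (flat L))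
      rw [BP.card_bx] at h2
      rw [← prod_flat]
      exact_mod_cast h2
    have h3 : 1 ≤ (Real.log (Real.log X₁)) ^ A * (Real.log (Real.log X₀)) ^ (-A) := by
      rw [Real.rpow_neg hll0.le, ← div_eq_mul_inv, one_le_div (Real.rpow_pos_of_pos hll0 _)]
      exact Real.rpow_le_rpow hll0.le (hllm X₀ X₁ hX₀ hlt.le) hA.le
    have h4 : 0 ≤ (Real.log (Real.log X₀)) ^ (-A) := (Real.rpow_pos_of_pos hll0 _).le
    have h5 : 0 ≤ (∑ f ∈ Icc 1 D, Cf f) * 2 ^ A := by positivity
    calc (E.card : ℝ) ≤ 1 * ∏ i, ∏ j, (L i j : ℝ) := by rw [one_mul]; exact h1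
      _ ≤ ((Real.log (Real.log X₁)) ^ A * (Real.log (Real.log X₀)) ^ (-A)) * ∏ i, ∏ j, (L i j : ℝ) :=
          mul_le_mul_of_nonneg_right h3 hP0.le
      _ ≤ _ := by
          refine mul_le_mul_of_nonneg_right (mul_le_mul_of_nonneg_right (by linarith) h4) hP0.le
  · rcases E.eq_empty_or_nonempty with hEe | ⟨n₀, hn₀⟩
    · rw [hEe, card_empty, Nat.cast_zero]
      have := hll X₁ hX₁16
      positivity
    have hT1 : 1 ≤ T := by
      rw [hE, mem_filter] at hn₀
      have h2 := hn₀.2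
      push Not at h2
      obtain ⟨X, h3, h4, -⟩ := h2
      by_contra hlt
      push Not at hlt
      have h5 := Real.rpow_le_one hT0.le hlt.le hc.le
      have h6 : (16 : ℝ) ≤ X := by exact_mod_cast hX₀.trans h3
      linarith
    obtain ⟨Y₀, hY₀⟩ : ∃ Y₀ : ℕ, Y₀ = rt D X₀ := ⟨_, rfl⟩
    obtain ⟨⟨⟨hY16, hYll⟩, -⟩, -⟩ := hX₁ X₀ hge
    rw [← hY₀] at hY16 hYll
    -- the exceptional sets
    obtain ⟨Ef, hEf⟩ : ∃ Ef : ℕ → Finset (Fin ((r + 3) * D) → ℕ), Ef = fun f => (BP.bx (flat L)).filter fun n =>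
      ∃ X : ℕ, Y₀ ≤ X ∧ (X : ℝ) ≤ T ^ (cf f) ∧ (Real.log (Real.log X)) ^ (1 / 2 + δ / 2) <
        |BP.sm (fun p n => hd f p (family r (combine b (fun i j => N i j + (n (finProdFinEquiv (i, j)) : ℤ))))) X n -
          κ f * Real.log (Real.log X)| := ⟨_, rfl⟩
    have hcov : E ⊆ (Icc 1 D).biUnion Ef := by
      intro n hn
      rw [hE, mem_filter] at hn
      obtain ⟨hnb, h2⟩ := hn
      push Not at h2
      obtain ⟨X, h3, h4, h5⟩ := h2
      by_contra hno
      rw [mem_biUnion] at hno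
      push Not at hno
      have hX16 : 16 ≤ X := hX₀.trans h3
      have hbd : ∀ f ∈ Icc 1 D, |∑ p ∈ BP.PP (rt f X), hd f p (family r (combine b (fun i j => N i j + (n (finProdFinEquiv (i, j)) : ℤ)))) -
          κ f * Real.log (Real.log X)| ≤ (Real.log (Real.log X)) ^ (1 / 2 + δ / 2) := by
        intro f hf
        have hf1 := (mem_Icc.1 hf).1
        have hfD := (mem_Icc.1 hf).2
        have hrt1 : Y₀ ≤ rt f X := by
          rw [le_rt hf1]
          calc Y₀ ^ f ≤ Y₀ ^ D := Nat.pow_le_pow_right (by omega) hfD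
            _ ≤ X₀ := (le_rt hD1).1 hY₀.le
            _ ≤ X := h3
        have hrt2 : rt f X ≤ X := (Nat.le_self_pow (by omega) _).trans ((le_rt hf1).1 le_rfl)
        have hrt3 : ((rt f X : ℕ) : ℝ) ≤ T ^ (cf f) := by
          have e1 : ((rt f X : ℕ) : ℝ) ≤ X := by exact_mod_cast hrt2
          exact e1.trans (h4.trans (Real.rpow_le_rpow_of_exponent_le hT1 (hcmin f hf)))
        have h6 := hno f hf
        rw [hEf, mem_filter] at h6
        have h7 : ¬ (Real.log (Real.log (rt f X))) ^ (1 / 2 + δ / 2) <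
            |BP.sm (fun p n => hd f p (family r (combine b (fun i j => N i j + (n (finProdFinEquiv (i, j)) : ℤ))))) (rt f X) n -
              κ f * Real.log (Real.log (rt f X))| := fun h8 => h6 ⟨hnb, rt f X, hrt1, hrt3, h8⟩
        push Not at h7
        have h8 : κ f * Real.log (Real.log (rt f X)) = κ f * Real.log (Real.log X) := by
          by_cases hf1' : f = 1
          · have : rt f X = X := by
              rw [hf1']
              refine le_antisymm ?_ ?_
              · have := (le_rt (f := 1) (X := X) (y := rt 1 X) le_rfl).1 le_rfl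
                rw [pow_one] at this
                exact this
              · rw [le_rt le_rfl, pow_one]
            rw [this]
          · rw [hκ]
            show (if f = 1 then (r + 1 / 2 : ℝ) else 0) * _ = (if f = 1 then (r + 1 / 2 : ℝ) else 0) * _
            rw [if_neg hf1', zero_mul, zero_mul]
        rw [h8] at h7
        refine h7.trans ?_
        have h9 := hllm (rt f X) X (hY16.trans hrt1) hrt2
        exact Real.rpow_le_rpow (hll _ (hY16.trans hrt1)).le h9 (by positivity)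
      have hsum : Real.log (product (family r (combine b (fun i j => N i j + (n (finProdFinEquiv (i, j)) : ℤ)))) X) -
          (r + 1 / 2) * Real.log (Real.log X) = ∑ f ∈ Icc 1 D, (∑ p ∈ BP.PP (rt f X), hd f p (family r (combine b (fun i j =>
            N i j + (n (finProdFinEquiv (i, j)) : ℤ)))) - κ f * Real.log (Real.log X)) := by
        rw [sum_sub_distrib, log_product, ← hD, ← sum_mul]
        congr 2
        rw [hκ, sum_ite_eq' (Icc 1 D) 1, if_pos (mem_Icc.2 ⟨le_rfl, hD1⟩)]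
      rw [hsum] at h5
      have h6 := (abs_sum_le_sum_abs (fun f => ∑ p ∈ BP.PP (rt f X), hd f p (family r (combine b (fun i j =>
            N i j + (n (finProdFinEquiv (i, j)) : ℤ)))) - κ f * Real.log (Real.log X)) (Icc 1 D)).trans (sum_le_sum hbd)
      rw [sum_const, Nat.card_Icc, nsmul_eq_mul] at h6
      have h7 := (hX₁ X (hge.trans h3)).1.2
      have h8 : ((D + 1 - 1 : ℕ) : ℝ) = D := by
        rw [Nat.add_sub_cancel]
      rw [h8] at h6
      linarith
    have hcard : ∀ f ∈ Icc 1 D, ((Ef f).card : ℝ) ≤ Cf f * (∏ i, ∏ j, (L i j : ℝ)) * (Real.log (Real.log Y₀)) ^ (-A) := by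
      intro f hf
      have hf1 := (mem_Icc.1 hf).1
      rw [← prod_flat]
      refine hlawf f (fun p n => hd f p (family r (combine b (fun i j => N i j + (n (finProdFinEquiv (i, j)) : ℤ)))))
        (mu K r f) (hmu f) (fun p hp => hd_per f r D b N p hp) (fun p hp => hB₁ f hf1 p hp D b hb N) ?_ Y₀ T hY16 hT0 (flat L) ?_
        (Ef f) ?_ ?_
      · intro p hp n
        have := hd_le f hf1 p hp (family r (combine b (fun i j => N i j + (n (finProdFinEquiv (i, j)) : ℤ))))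
        rw [← hD] at this
        exact this
      · intro k
        exact hTL _ _
      · rw [hEf]
        exact filter_subset _ _
      · intro n hn
        rw [hEf] at hn
        exact (mem_filter.1 hn).2
    have hYA : (Real.log (Real.log Y₀)) ^ (-A) ≤ 2 ^ A * (Real.log (Real.log X₀)) ^ (-A) := by
      have h1 : (Real.log (Real.log Y₀)) ^ (-A) ≤ (1 / 2 * Real.log (Real.log X₀)) ^ (-A) :=
        Real.rpow_le_rpow_of_nonpos (by positivity) hYll (by linarith)
      refine h1.trans (le_of_eq ?_)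
      rw [Real.mul_rpow (by norm_num) hll0.le, one_div, Real.rpow_neg (by norm_num), Real.inv_rpow (by norm_num), inv_inv]
    have h1 : (E.card : ℝ) ≤ ∑ f ∈ Icc 1 D, ((Ef f).card : ℝ) := by
      have := (card_le_card hcov).trans card_biUnion_le
      exact_mod_cast this
    have h2 : 0 ≤ (Real.log (Real.log X₁)) ^ A := by
      have := hll X₁ hX₁16
      positivity
    calc (E.card : ℝ) ≤ ∑ f ∈ Icc 1 D, Cf f * (∏ i, ∏ j, (L i j : ℝ)) * (Real.log (Real.log Y₀)) ^ (-A) := h1.trans (sum_le_sum hcard)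
      _ = (∑ f ∈ Icc 1 D, Cf f) * (∏ i, ∏ j, (L i j : ℝ)) * (Real.log (Real.log Y₀)) ^ (-A) := by
          rw [sum_mul, sum_mul]
      _ ≤ (∑ f ∈ Icc 1 D, Cf f) * (∏ i, ∏ j, (L i j : ℝ)) * (2 ^ A * (Real.log (Real.log X₀)) ^ (-A)) :=
          mul_le_mul_of_nonneg_left hYA (mul_nonneg hS0 hP0.le)
      _ = ((∑ f ∈ Icc 1 D, Cf f) * 2 ^ A) * (Real.log (Real.log X₀)) ^ (-A) * ∏ i, ∏ j, (L i j : ℝ) := by ring
      _ ≤ _ := by
          refine mul_le_mul_of_nonneg_right (mul_le_mul_of_nonneg_right (by linarith) ?_) hP0.le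
          exact (Real.rpow_pos_of_pos hll0 _).le

end Q282.NF
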