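import Mathlib

/-!
# The original products of Birch and Swinnerton-Dyer over a number field: definitions
-/

set_option autoImplicit false

namespace Q282.NF

open Finset NumberField IsDedekindDomain

/-- The coefficients `(b, c, d)` of the cubic polynomials `x ^ 3 + b x ^ 2 + c x + d` of the families:
all polynomials (`r = 0`), `(x - t 0) (x ^ 2 + t 2 x + t 3) + (t 1) ^ 2` (`r = 1`), and
`(x - t 0) (x - t 1) (x - t 2) + (t 3 x + t 4) ^ 2` (`r = 2`). -/
def family {R : Type} [CommRing R] : (r : ℕ) → (Fin (r + 3) → R) → R × R × R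
  | 0, t => (t 0, t 1, t 2)
  | 1, t => (t 2 - t 0, t 3 - t 0 * t 2, t 1 ^ 2 - t 0 * t 3)
  | _ + 2, t => (t 3 ^ 2 - (t 0 + t 1 + t 2), t 0 * t 1 + t 0 * t 2 + t 1 * t 2 + 2 * t 3 * t 4, t 4 ^ 2 - t 0 * t 1 * t 2)

/-- The discriminant of `x ^ 3 + b x ^ 2 + c x + d`. -/
def disc {R : Type} [CommRing R] (C : R × R × R) : R :=
  C.1 ^ 2 * C.2.1 ^ 2 - 4 * C.2.1 ^ 3 - 4 * C.1 ^ 3 * C.2.2 + 18 * C.1 * C.2.1 * C.2.2 - 27 * C.2.2 ^ 2

section

variable {K : Type} [Field K] [NumberField K]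

/-- The number of the solutions of `y ^ 2 = x ^ 3 + b x ^ 2 + c x + d` in the residue field of the prime `v` of `K`,
where `C = (b, c, d)` has entries in the ring of integers of `K`. -/
noncomputable def points (C : 𝓞 K × 𝓞 K × 𝓞 K) (v : HeightOneSpectrum (𝓞 K)) : ℕ :=
  Nat.card {P : (𝓞 K ⧸ v.asIdeal) × (𝓞 K ⧸ v.asIdeal) //
    P.2 ^ 2 = P.1 ^ 3 + (Ideal.Quotient.mk v.asIdeal) C.1 * P.1 ^ 2 + (Ideal.Quotient.mk v.asIdeal) C.2.1 * P.1 +
      (Ideal.Quotient.mk v.asIdeal) C.2.2}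

/-- `v` does not divide twice the discriminant. -/
def Good (C : 𝓞 K × 𝓞 K × 𝓞 K) (v : HeightOneSpectrum (𝓞 K)) : Prop := 2 * disc C ∉ v.asIdeal

/-- The product of Birch and Swinnerton-Dyer over `K`: `P(X) = ∏ #E(k_v) / q_v` over all primes `v` of `K` not dividing
twice the discriminant with `q_v = #k_v ≤ X`; here `#E(k_v)` is `points C v + 1`. -/
noncomputable def product (C : 𝓞 K × 𝓞 K × 𝓞 K) (X : ℕ) : ℝ :=
  ∏ᶠ v ∈ {v : HeightOneSpectrum (𝓞 K) | Good C v ∧ Ideal.absNorm v.asIdeal ≤ X},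
    ((points C v : ℝ) + 1) / Ideal.absNorm v.asIdeal

/-- The curve `y ^ 2 = x ^ 3 + b x ^ 2 + c x + d` over `K`, where `C = (b, c, d)`. -/
def curve (C : 𝓞 K × 𝓞 K × 𝓞 K) : WeierstrassCurve K :=
  { a₁ := 0, a₂ := (C.1 : K), a₃ := 0, a₄ := (C.2.1 : K), a₆ := (C.2.2 : K) }

end

/-- The box of the integers `n i j` with `N i j ≤ n i j < N i j + L i j` for all `i`, `j`. -/
noncomputable def box {m d : ℕ} (N : Fin m → Fin d → ℤ) (L : Fin m → Fin d → ℕ) : Finset (Fin m → Fin d → ℤ) :=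
  Fintype.piFinset fun i => Fintype.piFinset fun j => Ico (N i j) (N i j + L i j)

/-- The elements `t i = ∑ n i j b j` with the coordinates `n i j`. -/
def combine {O : Type} [CommRing O] {m d : ℕ} (b : Fin d → O) (n : Fin m → Fin d → ℤ) : Fin m → O :=
  fun i => ∑ j, (n i j : O) * b j

end Q282.NF
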