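import Pool.Agent.Q282.BP.Rank
import Pool.Agent.Q282.NF.Defs

/-!
# Halving of points, and the rank, over the field of fractions of an integrally closed domain
-/

set_option autoImplicit false

namespace Q282.NF

open WeierstrassCurve Q282.BP

section

variable {O K : Type} [CommRing O] [IsDomain O] [IsIntegrallyClosed O] [Field K] [CharZero K] [Algebra O K] [IsFractionRing O K]

/-- the curve `y ^ 2 = x ^ 3 + b x ^ 2 + c x + d` over the field of fractions -/
def crvK (K : Type) [Field K] [Algebra O K] (C : O × O × O) : Affine K :=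
  { a₁ := 0, a₂ := algebraMap O K C.1, a₃ := 0, a₄ := algebraMap O K C.2.1, a₆ := algebraMap O K C.2.2 }

omit [CharZero K] in
lemma int_root (a₃ a₂ a₁ a₀ : O) (s : K) (h : s ^ 4 + algebraMap O K a₃ * s ^ 3 + algebraMap O K a₂ * s ^ 2 +
    algebraMap O K a₁ * s + algebraMap O K a₀ = 0) : ∃ n : O, algebraMap O K n = s := by
  obtain ⟨P, hP⟩ : ∃ P : Polynomial O, P = Polynomial.X ^ 4 + (Polynomial.C a₃ * Polynomial.X ^ 3 + Polynomial.C a₂ * Polynomial.X ^ 2 +
    Polynomial.C a₁ * Polynomial.X + Polynomial.C a₀) := ⟨_, rfl⟩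
  have hm : P.Monic := by
    rw [hP]
    exact Polynomial.monic_X_pow_add (lt_of_le_of_lt Polynomial.degree_cubic_le (by exact_mod_cast (by norm_num : 3 < 4)))
  have hr : Polynomial.aeval s P = 0 := by
    rw [hP]
    simp only [map_add, map_mul, map_pow, Polynomial.aeval_X, Polynomial.aeval_C]
    linear_combination h
  exact IsIntegrallyClosed.algebraMap_eq_of_integral ⟨P, hm, hr⟩

omit [CharZero K] in
/-- a root of the cubic polynomial in the field is in the ring -/
lemma int_root_cub (C : O × O × O) (x : K) (h : x ^ 3 + algebraMap O K C.1 * x ^ 2 + algebraMap O K C.2.1 * x +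
    algebraMap O K C.2.2 = 0) : ∃ n : O, cub C n = 0 := by
  obtain ⟨n, hn⟩ := int_root (K := K) C.1 C.2.1 C.2.2 0 x (by
    rw [map_zero]
    linear_combination x * h)
  refine ⟨n, ?_⟩
  rw [← hn] at h
  apply IsFractionRing.injective O K
  unfold cub
  simp only [map_add, map_mul, map_pow, map_zero]
  exact h

/-- if the discriminant vanishes, then there is a root -/
lemma root_of_dis (K : Type) [Field K] [CharZero K] [Algebra O K] [IsFractionRing O K] (C : O × O × O) (h : dis C = 0) :
    ∃ n : O, cub C n = 0 := by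
  obtain ⟨b₀, c₀, d₀⟩ := C
  unfold dis at h
  simp only at h
  obtain ⟨b, hb⟩ : ∃ b : K, b = algebraMap O K b₀ := ⟨_, rfl⟩
  obtain ⟨c, hc⟩ : ∃ c : K, c = algebraMap O K c₀ := ⟨_, rfl⟩
  obtain ⟨d, hd⟩ : ∃ d : K, d = algebraMap O K d₀ := ⟨_, rfl⟩
  have hq : (b ^ 2 * c ^ 2 - 4 * c ^ 3 - 4 * b ^ 3 * d + 18 * b * c * d - 27 * d ^ 2) = 0 := by
    have h1 := congrArg (algebraMap O K) h
    simp only [map_sub, map_add, map_mul, map_pow, map_ofNat, map_zero] at h1
    rw [hb, hc, hd]
    exact h1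
  by_cases h0 : b ^ 2 - 3 * c = 0
  · refine int_root_cub (K := K) (b₀, c₀, d₀) (-b / 3) ?_
    show (-b / 3) ^ 3 + algebraMap O K b₀ * (-b / 3) ^ 2 + algebraMap O K c₀ * (-b / 3) + algebraMap O K d₀ = 0
    rw [← hb, ← hc, ← hd]
    have hc' : c = b ^ 2 / 3 := by
      field_simp
      linear_combination -h0
    rw [hc'] at hq ⊢
    have h1 : (d - b ^ 3 / 27) ^ 2 = 0 := by linear_combination (-1 / 27) * hq
    have h2 : d - b ^ 3 / 27 = 0 := pow_eq_zero_iff (two_ne_zero) |>.1 h1
    linear_combination h2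
  · refine int_root_cub (K := K) (b₀, c₀, d₀) ((9 * d - b * c) / (2 * (b ^ 2 - 3 * c))) ?_
    show ((9 * d - b * c) / (2 * (b ^ 2 - 3 * c))) ^ 3 + algebraMap O K b₀ * ((9 * d - b * c) / (2 * (b ^ 2 - 3 * c))) ^ 2 +
      algebraMap O K c₀ * ((9 * d - b * c) / (2 * (b ^ 2 - 3 * c))) + algebraMap O K d₀ = 0
    rw [← hb, ← hc, ← hd]
    have h2 : (2 * (b ^ 2 - 3 * c)) ≠ 0 := mul_ne_zero two_ne_zero h0
    obtain ⟨D, hD⟩ : ∃ D : K, D = 2 * (b ^ 2 - 3 * c) := ⟨_, rfl⟩
    rw [← hD] at h2 ⊢
    have h3 : ((9 * d - b * c) / D) ^ 3 + b * ((9 * d - b * c) / D) ^ 2 + c * ((9 * d - b * c) / D) + d =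
        ((9 * d - b * c) ^ 3 + b * (9 * d - b * c) ^ 2 * D + c * (9 * d - b * c) * D ^ 2 + d * D ^ 3) / D ^ 3 := by
      field_simp
    rw [h3, div_eq_zero_iff]
    left
    rw [hD]
    linear_combination (-27 * d + 9 * b * c - 2 * b ^ 3) * hq

omit [IsDomain O] [IsIntegrallyClosed O] [CharZero K] [IsFractionRing O K] in
lemma crv_negY [DecidableEq K] (C : O × O × O) (x y : K) : (crvK K C).negY x y = -y := by
  unfold Affine.negY crvK
  simp

omit [IsDomain O] [IsIntegrallyClosed O] [CharZero K] [IsFractionRing O K] in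
lemma crv_eq (C : O × O × O) (x y : K) (h : (crvK K C).Nonsingular x y) : y ^ 2 = x ^ 3 + algebraMap O K C.1 * x ^ 2 +
    algebraMap O K C.2.1 * x + algebraMap O K C.2.2 := by
  have h1 := (Affine.equation_iff x y).1 h.1
  unfold crvK at h1
  simp only at h1
  linear_combination h1

variable [DecidableEq K]

/-- no roots: no points of order two -/
lemma tors (C : O × O × O) (hC : ∀ n : O, cub C n ≠ 0) (P : (crvK K C).Point) (hP : P + P = 0) : P = 0 := by
  cases P with
  | zero => rfl
  | some x y h =>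
    exfalso
    have h1 : Affine.Point.some x y h = - Affine.Point.some x y h := eq_neg_of_add_eq_zero_left hP
    rw [Affine.Point.neg_some] at h1
    have h2 := (Affine.Point.some.injEq ..).mp h1
    have h3 : y = (crvK K C).negY x y := h2.2
    rw [crv_negY] at h3
    have h4 : y = 0 := self_eq_neg.1 h3
    have h5 := crv_eq C x y h
    rw [h4] at h5
    obtain ⟨n, hn⟩ := int_root_cub (K := K) C x (by rw [← h5]; ring)
    exact hC n hn

/-- the slope of the tangent is a root of the quartic polynomial -/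
lemma half (C : O × O × O) (x y : O) (h : (crvK K C).Nonsingular (algebraMap O K x) (algebraMap O K y)) (Q : (crvK K C).Point)
    (hQ : Q + Q = Affine.Point.some (algebraMap O K x) (algebraMap O K y) h) : ∃ s : O, quart C x y s = 0 := by
  obtain ⟨x', hx'⟩ : ∃ x' : K, x' = algebraMap O K x := ⟨_, rfl⟩
  obtain ⟨y', hy'⟩ : ∃ y' : K, y' = algebraMap O K y := ⟨_, rfl⟩
  obtain ⟨b, hb⟩ : ∃ b : K, b = algebraMap O K C.1 := ⟨_, rfl⟩
  obtain ⟨c, hc⟩ : ∃ c : K, c = algebraMap O K C.2.1 := ⟨_, rfl⟩
  obtain ⟨d, hd⟩ : ∃ d : K, d = algebraMap O K C.2.2 := ⟨_, rfl⟩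
  cases Q with
  | zero =>
    exfalso
    have h1 : (Affine.Point.zero : (crvK K C).Point) = 0 := rfl
    rw [h1, add_zero] at hQ
    exact Affine.Point.some_ne_zero h hQ.symm
  | some X Y hXY =>
    by_cases hY : Y = (crvK K C).negY X Y
    · exfalso
      rw [Affine.Point.add_self_of_Y_eq hY] at hQ
      exact Affine.Point.some_ne_zero h hQ.symm
    · rw [Affine.Point.add_self_of_Y_ne hY] at hQ
      obtain ⟨hx, hy⟩ := (Affine.Point.some.injEq ..).mp hQ
      have hs := Affine.slope_of_Y_ne (W := crvK K C) (x₁ := X) (x₂ := X) (y₁ := Y) (y₂ := Y) rfl hY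
      obtain ⟨s, hs'⟩ : ∃ s, s = (crvK K C).slope X X Y Y := ⟨_, rfl⟩
      rw [← hs'] at hs hx hy
      rw [crv_negY] at hY hs
      have hY0 : Y ≠ 0 := by
        rintro rfl
        apply hY
        rw [neg_zero]
      have e1 : (crvK K C).a₁ = 0 := rfl
      have e2 : (crvK K C).a₂ = b := hb.symm
      have e3 : (crvK K C).a₄ = c := hc.symm
      rw [e1, e2, e3] at hs
      unfold Affine.addY Affine.negAddY at hy
      rw [crv_negY, hx] at hy
      unfold Affine.addX at hx
      rw [e1, e2, ← hx'] at hx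
      rw [← hx', ← hy'] at hy
      have h1 : s * (2 * Y) = 3 * X ^ 2 + 2 * b * X + c := by
        rw [hs]
        have : Y - -Y ≠ 0 := by
          intro h0
          apply hY0
          rw [sub_neg_eq_add, ← two_mul] at h0
          exact (mul_eq_zero.1 h0).resolve_left two_ne_zero
        field_simp
        ring
      have h2 := crv_eq C X Y hXY
      rw [← hb, ← hc, ← hd] at h2
      have h3 : y' ^ 2 = x' ^ 3 + b * x' ^ 2 + c * x' + d := by
        rw [hx', hy', hb, hc, hd]
        exact crv_eq C _ _ h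
      -- the quartic equation
      have hq : s ^ 4 - (2 * b + 6 * x') * s ^ 2 - 8 * y' * s + (b ^ 2 - 2 * b * x' - 3 * x' ^ 2 - 4 * c) = 0 := by
        have hX : X = (s ^ 2 - b - x') / 2 := by
          have : (2 : K) ≠ 0 := two_ne_zero
          field_simp
          linear_combination -hx
        have hYY : Y = s * (X - x') - y' := by linear_combination -hy
        rw [hYY, hX] at h1
        linear_combination 4 * h1
      obtain ⟨n, hn⟩ := int_root (K := K) (0 : O) (-(2 * C.1 + 6 * x)) (-(8 * y)) (C.1 ^ 2 - 2 * C.1 * x - 3 * x ^ 2 - 4 * C.2.1) s (by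
        simp only [map_sub, map_add, map_mul, map_pow, map_ofNat, map_zero, map_neg]
        rw [← hb, ← hc, ← hx', ← hy']
        linear_combination hq)
      refine ⟨n, ?_⟩
      rw [← hn, hb, hc, hx', hy'] at hq
      apply IsFractionRing.injective O K
      unfold quart
      simp only [map_sub, map_add, map_mul, map_pow, map_ofNat, map_zero]
      exact hq

end

end Q282.NF
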