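import Pool.Agent.Q282.BP.Law2

/-!
# The law for functions with given sums of local means
-/

set_option autoImplicit false

namespace Q282.NF

open Finset Filter Topology Q282.BP
open Pool.Agent.TH894.NE (box mem_box card_box Per mean mean_mul mean_add mean_const mean_mono momentd)

/-- the law for functions with given local means -/
theorem law_m {d : ℕ} (δ A : ℝ) (hδ : 0 < δ) (hA : 0 < A) (B B₁ κ M : ℝ) (hB : 0 < B) (hB₁ : 0 ≤ B₁) :
    ∃ c : ℝ, 0 < c ∧ ∃ C : ℝ, 0 ≤ C ∧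
    ∀ (h : ℕ → (Fin d → ℕ) → ℝ) (m : ℕ → ℝ), (∀ X : ℕ, 3 ≤ X → |∑ p ∈ PP X, m p - κ * Real.log (Real.log X)| ≤ M) →
    (∀ p : ℕ, p.Prime → Per p (h p)) →
    (∀ p : ℕ, p.Prime → |mean d p (h p) - m p| ≤ B₁ / (p : ℝ) ^ (3 / 2 : ℝ)) →
    (∀ p : ℕ, p.Prime → ∀ n, |h p n| ≤ B / Real.sqrt p) →
    ∀ (X₀ : ℕ) (T : ℝ), 16 ≤ X₀ → 0 < T → ∀ L : Fin d → ℕ, (∀ i, T ≤ L i) → ∀ E : Finset (Fin d → ℕ), E ⊆ bx L →
      (∀ n ∈ E, ∃ X : ℕ, X₀ ≤ X ∧ (X : ℝ) ≤ T ^ c ∧
        (Real.log (Real.log X)) ^ (1 / 2 + δ) < |sm h X n - κ * Real.log (Real.log X)|) →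
      (E.card : ℝ) ≤ C * (∏ i, (L i : ℝ)) * (Real.log (Real.log X₀)) ^ (-A) := by
  classical
  have hsum : Summable fun n : ℕ => 1 / (n : ℝ) ^ (3 / 2 : ℝ) := Real.summable_one_div_nat_rpow.2 (by norm_num)
  obtain ⟨Z, hZ⟩ : ∃ Z : ℝ, Z = ∑' n : ℕ, 1 / (n : ℝ) ^ (3 / 2 : ℝ) := ⟨_, rfl⟩
  obtain ⟨C₂, hC₂⟩ : ∃ C₂ : ℝ, C₂ = B₁ * Z + M := ⟨_, rfl⟩
  obtain ⟨j, hj, C, hC0, hlaw⟩ := law (d := d) (δ / 2) A (by positivity) hA (2 * B) (by positivity)
  obtain ⟨X₁, hX₁⟩ := eventually_atTop.1 ((room δ C₂ hδ).and (eventually_ge_atTop (2 * d + 16)))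
  obtain ⟨X₂, hX₂⟩ : ∃ X₂ : ℕ, X₂ = max X₁ (2 * d + 16) := ⟨_, rfl⟩
  have hX₂a : X₁ ≤ X₂ := hX₂ ▸ le_max_left _ _
  have hX₂b : 2 * d + 16 ≤ X₂ := hX₂ ▸ le_max_right _ _
  refine ⟨1 / (5 * j + 1), by positivity, max C ((Real.log (Real.log X₂)) ^ A), hC0.trans (le_max_left _ _), ?_⟩
  intro h m hM hper hmean hbd X₀ T hX₀ hT0 L hL E hE hEx
  have hL0 : ∀ i, (0 : ℝ) < L i := fun i => hT0.trans_le (hL i)
  have hP0 : 0 < ∏ i, (L i : ℝ) := prod_pos fun i _ => hL0 i
  have hll : ∀ X : ℕ, 16 ≤ X → 0 < Real.log (Real.log X) := by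
    intro X hX
    have h1 : (16 : ℝ) ≤ X := by exact_mod_cast hX
    have h3 : 1 < Real.log X := by
      rw [Real.lt_log_iff_exp_lt (by linarith)]
      have := Real.exp_one_lt_d9
      linarith
    exact Real.log_pos h3
  have hll0 := hll X₀ hX₀
  rcases lt_or_ge X₀ X₂ with hlt | hge
  · have h1 : (E.card : ℝ) ≤ ∏ i, (L i : ℝ) := by
      have h2 := card_le_card hE
      rw [card_bx] at h2
      exact_mod_cast h2
    have h2 : Real.log (Real.log X₀) ≤ Real.log (Real.log X₂) := by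
      have e1 : (16 : ℝ) ≤ X₀ := by exact_mod_cast hX₀
      have e2 : (X₀ : ℝ) ≤ X₂ := by exact_mod_cast hlt.le
      exact Real.log_le_log (Real.log_pos (by linarith)) (Real.log_le_log (by linarith) e2)
    have h3 : 1 ≤ (Real.log (Real.log X₂)) ^ A * (Real.log (Real.log X₀)) ^ (-A) := by
      rw [Real.rpow_neg hll0.le, ← div_eq_mul_inv, one_le_div (Real.rpow_pos_of_pos hll0 _)]
      exact Real.rpow_le_rpow hll0.le h2 hA.le
    have h4 : 0 ≤ (Real.log (Real.log X₀)) ^ (-A) := (Real.rpow_pos_of_pos hll0 _).le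
    calc (E.card : ℝ) ≤ ∏ i, (L i : ℝ) := h1
      _ ≤ (∏ i, (L i : ℝ)) * ((Real.log (Real.log X₂)) ^ A * (Real.log (Real.log X₀)) ^ (-A)) :=
          le_mul_of_one_le_right hP0.le h3
      _ = (Real.log (Real.log X₂)) ^ A * (∏ i, (L i : ℝ)) * (Real.log (Real.log X₀)) ^ (-A) := by ring
      _ ≤ _ := by
          refine mul_le_mul_of_nonneg_right (mul_le_mul_of_nonneg_right (le_max_right _ _) hP0.le) h4
  · rcases E.eq_empty_or_nonempty with hEe | ⟨n₀, hn₀⟩
    · rw [hEe, card_empty, Nat.cast_zero]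
      have : 0 ≤ max C ((Real.log (Real.log X₂)) ^ A) := hC0.trans (le_max_left _ _)
      positivity
    obtain ⟨X', hX'a, hX'b, -⟩ := hEx n₀ hn₀
    obtain ⟨N, hN⟩ : ∃ N : ℕ, N = ⌊T ^ (1 / (5 * (j : ℝ) + 1))⌋₊ := ⟨_, rfl⟩
    have hTc : (N : ℝ) ≤ T ^ (1 / (5 * (j : ℝ) + 1)) := by
      rw [hN]
      exact Nat.floor_le (by positivity)
    have hleN : ∀ X : ℕ, (X : ℝ) ≤ T ^ (1 / (5 * (j : ℝ) + 1)) → X ≤ N := by
      intro X hX
      rw [hN]
      exact Nat.le_floor hX
    have hNX : X₀ ≤ N := hX'a.trans (hleN X' hX'b)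
    have hTN : 2 * d * (N : ℝ) ^ (5 * j) ≤ T := by
      have h1 : (2 * d : ℝ) ≤ N := by
        have : 2 * d ≤ N := by omega
        exact_mod_cast this
      calc 2 * d * (N : ℝ) ^ (5 * j) ≤ N * (N : ℝ) ^ (5 * j) := mul_le_mul_of_nonneg_right h1 (by positivity)
        _ = (N : ℝ) ^ (5 * j + 1) := by ring
        _ ≤ (T ^ (1 / (5 * (j : ℝ) + 1))) ^ (5 * j + 1) := pow_le_pow_left₀ (Nat.cast_nonneg _) hTc _
        _ = T := by
            rw [← Real.rpow_natCast, ← Real.rpow_mul hT0.le]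
            push_cast
            rw [one_div_mul_cancel (by positivity), Real.rpow_one]
    -- the centred functions
    obtain ⟨μ, hμ⟩ : ∃ μ : ℕ → ℝ, μ = fun p => mean d p (h p) := ⟨_, rfl⟩
    have hμB : ∀ p : ℕ, p.Prime → |μ p| ≤ B / Real.sqrt p := by
      intro p hp
      rw [hμ, abs_le]
      constructor
      · have h1 := mean_mono (d := d) (q := p) (F := fun _ => -(B / Real.sqrt p)) (G := h p) fun n => (abs_le.1 (hbd p hp n)).1
        rw [mean_const d p hp.one_lt.le] at h1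
        exact h1
      · have h1 := mean_mono (d := d) (q := p) (F := h p) (G := fun _ => B / Real.sqrt p) fun n => (abs_le.1 (hbd p hp n)).2
        rw [mean_const d p hp.one_lt.le] at h1
        exact h1
    have hdiff : ∀ X : ℕ, 16 ≤ X → ∀ n, |(sm h X n - κ * Real.log (Real.log X)) - sm (fun p n => h p n - μ p) X n| ≤ C₂ := by
      intro X hX n
      have e1 : (sm h X n - κ * Real.log (Real.log X)) - sm (fun p n => h p n - μ p) X n =
          ∑ p ∈ PP X, (μ p - m p) + (∑ p ∈ PP X, m p - κ * Real.log (Real.log X)) := by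
        unfold sm
        rw [sum_sub_distrib, sum_sub_distrib]
        ring
      rw [e1, hC₂]
      refine (abs_add_le _ _).trans (add_le_add ?_ ?_)
      · refine (abs_sum_le_sum_abs _ _).trans ?_
        calc ∑ p ∈ PP X, |μ p - m p| ≤ ∑ p ∈ PP X, B₁ * (1 / (p : ℝ) ^ (3 / 2 : ℝ)) := by
              refine sum_le_sum fun p hp => ?_
              have := hmean p (mem_filter.1 hp).2
              rw [hμ, mul_one_div]
              exact this
          _ = B₁ * ∑ p ∈ PP X, 1 / (p : ℝ) ^ (3 / 2 : ℝ) := by rw [mul_sum]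
          _ ≤ B₁ * Z := by
              refine mul_le_mul_of_nonneg_left ?_ hB₁
              rw [hZ]
              exact hsum.sum_le_tsum _ fun n _ => by positivity
      · exact hM X (by omega)
    have h1 := hlaw (fun p n => h p n - μ p) (fun p hp n => by
        show h p n - μ p = h p (fun i => n i % p) - μ p
        rw [← hper p hp n])
      (fun p hp => by
        show mean d p (fun n => h p n - μ p) = 0
        have e : (fun n : Fin d → ℕ => h p n - μ p) = fun n => h p n + (- μ p) := by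
          funext n
          ring
        rw [e, mean_add, mean_const d p hp.one_lt.le, hμ]
        ring)
      (fun p hp n => by
        show |h p n - μ p| ≤ 2 * B / Real.sqrt p
        refine (abs_sub _ _).trans ?_
        have e1 := hbd p hp n
        have e2 := hμB p hp
        have e3 : 2 * B / Real.sqrt p = B / Real.sqrt p + B / Real.sqrt p := by ring
        rw [e3]
        exact add_le_add e1 e2)
      X₀ N T hX₀ hT0 hTN L hL E hE (by
        intro n hn
        obtain ⟨X, h2, h3, h4⟩ := hEx n hn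
        refine ⟨X, h2, hleN X h3, ?_⟩
        have h5 := (hX₁ X ((hX₂a.trans hge).trans h2)).1
        have h6 := hdiff X (hX₀.trans h2) n
        have h7 : |sm h X n - κ * Real.log (Real.log X)| ≤ |sm (fun p n => h p n - μ p) X n| + C₂ := by
          have h8 := abs_add_le (sm (fun p n => h p n - μ p) X n)
            ((sm h X n - κ * Real.log (Real.log X)) - sm (fun p n => h p n - μ p) X n)
          rw [add_sub_cancel] at h8
          linarith
        linarith)
    refine h1.trans ?_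
    refine mul_le_mul_of_nonneg_right (mul_le_mul_of_nonneg_right (le_max_left _ _) hP0.le) ?_
    exact (Real.rpow_pos_of_pos hll0 _).le

end Q282.NF
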