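import Pool.Agent.Q282.BP.Loc
import Pool.Agent.Q282.BP.Bad
import Pool.Agent.Y57.FD.HypM

/-!
# The local values over a finite field
-/

set_option autoImplicit false

namespace Q282.NF

open Finset Q282.BP

/-- the number of the affine points -/
lemma card_affine {F : Type} [Field F] [Fintype F] [DecidableEq F] (hchar : ringChar F ≠ 2) (f : F → F) :
    (Nat.card {P : F × F // P.2 ^ 2 = f P.1} : ℝ) = (Fintype.card F : ℝ) + ∑ x : F, ch (f x) := by
  classical
  have h1 : Nat.card {P : F × F // P.2 ^ 2 = f P.1} = ∑ x : F, Nat.card {y : F // y ^ 2 = f x} := by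
    rw [← Nat.card_sigma]
    refine Nat.card_congr ⟨fun P => ⟨P.1.1, ⟨P.1.2, P.2⟩⟩, fun P => ⟨(P.1, P.2.1), P.2.2⟩, fun _ => rfl, fun _ => rfl⟩
  have h2 : ∀ x : F, ((Nat.card {y : F // y ^ 2 = f x} : ℕ) : ℤ) = quadraticChar F (f x) + 1 := by
    intro x
    rw [← quadraticChar_card_sqrts hchar (f x)]
    congr 1
    rw [Nat.card_eq_fintype_card, Fintype.card_subtype]
    congr 1
    ext y
    simp
  rw [h1]
  push_cast
  have h3 : ∀ x : F, ((Nat.card {y : F // y ^ 2 = f x} : ℕ) : ℝ) = ch (f x) + 1 := by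
    intro x
    have := h2 x
    unfold ch
    exact_mod_cast this
  rw [sum_congr rfl (fun x _ => h3 x), sum_add_distrib, sum_const, card_univ, nsmul_eq_mul, mul_one]
  ring

/-- Hasse's bound -/
lemma hasse {K : Type} [Field K] [Fintype K] [DecidableEq K] (hK : ringChar K ≠ 2) (c : K × K × K) :
    |SS c| ≤ 2 * Real.sqrt (Fintype.card K) := by
  obtain ⟨f, hf⟩ : ∃ f : Polynomial K, f = Polynomial.X ^ 3 + (Polynomial.C c.1 * Polynomial.X ^ 2 +
    Polynomial.C c.2.1 * Polynomial.X + Polynomial.C c.2.2) := ⟨_, rfl⟩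
  have hlow : (Polynomial.C c.1 * Polynomial.X ^ 2 + Polynomial.C c.2.1 * Polynomial.X + Polynomial.C c.2.2 :
      Polynomial K).degree < ((3 : ℕ) : WithBot ℕ) := by
    refine lt_of_le_of_lt (Polynomial.degree_quadratic_le) ?_
    exact_mod_cast (by norm_num : 2 < 3)
  have hm : f.Monic := by
    rw [hf]
    exact Polynomial.monic_X_pow_add hlow
  have hd : f.natDegree = 3 := by
    apply Polynomial.natDegree_eq_of_degree_eq_some
    rw [hf, Polynomial.degree_add_eq_left_of_degree_lt, Polynomial.degree_X_pow]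
    rw [Polynomial.degree_X_pow]
    exact hlow
  have h1 := Pool.Agent.H341R2.Sharp.weil_sharp_monic hK hm (by rw [hd]; norm_num) (by
    intro a h hc
    have h3 : f ≠ 0 := hm.ne_zero
    have ha0 : a ≠ 0 := by
      rintro rfl
      rw [Polynomial.C_0, zero_mul] at hc
      exact h3 hc
    have h2 := hd
    rw [hc, Polynomial.natDegree_C_mul ha0, Polynomial.natDegree_pow] at h2
    omega)
  rw [hd] at h1
  have h2 : ∀ x : K, f.eval x = cub c x := by
    intro x
    rw [hf]
    unfold cub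
    simp
    ring
  have h3 : SS c = ∑ x : K, (quadraticChar K (f.eval x) : ℝ) := by
    unfold SS ch
    exact sum_congr rfl fun x _ => by rw [h2 x]
  rw [h3]
  refine h1.trans (le_of_eq ?_)
  norm_num

/-- the local value -/
noncomputable def locF {F : Type} [Field F] [Fintype F] [DecidableEq F] (c : F × F × F) : ℝ :=
  if dis c = 0 then 0 else Real.log (1 + (1 + SS c) / Fintype.card F)

lemma three_le_card {F : Type} [Field F] [Fintype F] (hF : ringChar F ≠ 2) : 3 ≤ Fintype.card F := by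
  obtain ⟨n, hp, hn⟩ := FiniteField.card F (ringChar F)
  rw [hn]
  have h3 : 3 ≤ ringChar F := by
    have := hp.two_le
    omega
  calc 3 ≤ ringChar F := h3
    _ ≤ ringChar F ^ (n : ℕ) := Nat.le_self_pow n.pos.ne' _

lemma locF_le {F : Type} [Field F] [Fintype F] [DecidableEq F] (hF : ringChar F ≠ 2) (c : F × F × F) :
    |locF c| ≤ 6 / Real.sqrt (Fintype.card F) := by
  have h3 := three_le_card hF
  have h4 : 3 / 2 ≤ Real.sqrt (Fintype.card F) := by
    refine Real.le_sqrt_of_sq_le ?_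
    have : (3 : ℝ) ≤ Fintype.card F := by exact_mod_cast h3
    norm_num
    linarith
  unfold locF
  split_ifs
  · rw [abs_zero]
    positivity
  · have h2 := log_bound h4 (hasse hF c)
    rw [Real.sq_sqrt (by positivity)] at h2
    exact h2

theorem loc_mean (r : ℕ) (hr : r ≤ 2) : ∃ C : ℝ, 0 ≤ C ∧ ∀ (F : Type) [Field F] [Fintype F] [DecidableEq F], ringChar F ≠ 2 →
    (27 : F) ≠ 0 → |(∑ t : Fin (r + 3) → F, locF (fam r t)) / Fintype.card (Fin (r + 3) → F) - (r + 1 / 2) / Fintype.card F| ≤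
      C / (Fintype.card F : ℝ) ^ (3 / 2 : ℝ) := by
  classical
  obtain ⟨C', hC'0, hC'⟩ := local_gen r 20 (by norm_num)
  refine ⟨C', hC'0, fun F _ _ _ hF h27 => ?_⟩
  obtain ⟨hb, hm1, hm2⟩ := loc_fam hF (Or.inl h27) r hr
  have h1 := hC' (Fintype.card F) (three_le_card hF) (Fin (r + 3) → F) (fun t => SS (fam r t)) (fun t => dis (fam r t) = 0)
    (fun t => hasse hF (fam r t)) (by convert hb) hm1 hm2
  refine le_trans (le_of_eq ?_) h1
  congr 3
  refine sum_congr rfl fun u _ => ?_
  unfold locF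
  split_ifs <;> rfl

end Q282.NF
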