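import Pool.Agent.Q282.NF.Law3
import Pool.Agent.Y57.FD.HypM

/-!
# Averages over the residues
-/

set_option autoImplicit false

namespace Q282.NF

open Finset Q282.BP
open Pool.Agent.TH894.NE (Per mean)

/-- the average of a function over the values of a surjective homomorphism -/
lemma sum_surj {A V : Type} [AddCommGroup A] [AddCommGroup V] [Fintype A] [Fintype V] (Φ : A →+ V)
    (hΦ : Function.Surjective Φ) (G : V → ℝ) :
    (∑ u : A, G (Φ u)) * Fintype.card V = Fintype.card A * ∑ v : V, G v := by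
  classical
  have h1 : ∑ u : A, G (Φ u) = ∑ v : V, ((univ.filter fun u : A => Φ u = v).card : ℝ) * G v := by
    rw [← sum_fiberwise_of_maps_to (s := (univ : Finset A)) (t := (univ : Finset V)) (g := Φ) fun _ _ => mem_univ _]
    refine sum_congr rfl fun v _ => ?_
    rw [sum_congr rfl (g := fun _ => G v) fun u hu => by rw [(mem_filter.1 hu).2], sum_const, nsmul_eq_mul]
  have h2 : ∀ v : V, (univ.filter fun u : A => Φ u = v).card = (univ.filter fun u : A => Φ u = 0).card := by
    intro v
    obtain ⟨a, ha⟩ := hΦ v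
    refine card_bij (fun u _ => u - a) ?_ ?_ ?_
    · intro u hu
      rw [mem_filter] at hu ⊢
      exact ⟨mem_univ _, by rw [map_sub, hu.2, ha, sub_self]⟩
    · intro u _ w _ h
      exact sub_left_injective h
    · intro u hu
      rw [mem_filter] at hu
      refine ⟨u + a, ?_, by rw [add_sub_cancel_right]⟩
      rw [mem_filter]
      exact ⟨mem_univ _, by rw [map_add, hu.2, ha, zero_add]⟩
  have h3 : (Fintype.card A : ℝ) = Fintype.card V * ((univ.filter fun u : A => Φ u = 0).card : ℝ) := by
    have h4 : Fintype.card A = ∑ v : V, (univ.filter fun u : A => Φ u = v).card := by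
      rw [← card_univ]
      exact card_eq_sum_card_fiberwise fun _ _ => mem_univ _
    rw [h4, sum_congr rfl fun v _ => h2 v, sum_const, card_univ, nsmul_eq_mul]
    push_cast
    ring
  rw [h1, sum_congr rfl fun v _ => by rw [h2 v], ← mul_sum, h3]
  ring

section

variable {O F : Type} [CommRing O] [Field F] [Fintype F]

/-- the elements with given coordinates -/
def elt {m d : ℕ} (b : Fin d → O) (N : Fin m → Fin d → ℤ) : Fin m → O := fun i => ∑ j, (N i j : O) * b j

/-- the mean over the residues -/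
theorem mean_red {m d : ℕ} (p : ℕ) [hp : Fact p.Prime] [CharP F p] (π : O →+* F) (hπ : Function.Surjective π)
    (b : Fin d → O) (hb : ∀ x : O, ∃ a : Fin d → ℤ, x = ∑ j, (a j : O) * b j) (N : Fin m → Fin d → ℤ)
    (G : (Fin m → F) → ℝ) :
    mean (m * d) p (fun n => G (fun i => π (elt b (fun i j => N i j + n (finProdFinEquiv (i, j))) i))) =
      (∑ u : Fin m → F, G u) / Fintype.card (Fin m → F) := by
  classical
  obtain ⟨c, hc⟩ : ∃ c : ZMod p →+* F, c = ZMod.castHom (dvd_refl p) F := ⟨_, rfl⟩
  obtain ⟨Φ, hΦ⟩ : ∃ Φ : (Fin (m * d) → ZMod p) →+ (Fin m → F), ∀ u i, Φ u i = ∑ j, c (u (finProdFinEquiv (i, j))) * π (b j) :=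
    ⟨{ toFun := fun u i => ∑ j, c (u (finProdFinEquiv (i, j))) * π (b j)
       map_zero' := by
         funext i
         simp
       map_add' := by
         intro u v
         funext i
         simp [add_mul, sum_add_distrib] }, fun _ _ => rfl⟩
  have hsurj : Function.Surjective Φ := by
    intro v
    have h1 : ∀ i, ∃ a : Fin d → ℤ, v i = ∑ j, (a j : F) * π (b j) := by
      intro i
      obtain ⟨x, hx⟩ := hπ (v i)
      obtain ⟨a, ha⟩ := hb x
      refine ⟨a, ?_⟩
      rw [← hx, ha, map_sum]
      refine sum_congr rfl fun j _ => ?_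
      rw [map_mul, map_intCast]
    choose a ha using h1
    refine ⟨fun k => (a (finProdFinEquiv.symm k).1 (finProdFinEquiv.symm k).2 : ZMod p), ?_⟩
    funext i
    rw [hΦ, ha]
    refine sum_congr rfl fun j _ => ?_
    rw [Equiv.symm_apply_apply, map_intCast]
  obtain ⟨w, hw⟩ : ∃ w : Fin m → F, w = fun i => ∑ j, (N i j : F) * π (b j) := ⟨_, rfl⟩
  have h1 : ∀ n : Fin (m * d) → ℕ, G (fun i => π (elt b (fun i j => N i j + n (finProdFinEquiv (i, j))) i)) =
      (fun u : Fin (m * d) → ZMod p => G (w + Φ u)) (fun k => (n k : ZMod p)) := by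
    intro n
    show _ = G (w + Φ (fun k => (n k : ZMod p)))
    congr 1
    funext i
    rw [Pi.add_apply, hΦ, hw]
    unfold elt
    rw [map_sum, ← sum_add_distrib]
    refine sum_congr rfl fun j _ => ?_
    rw [map_mul, map_intCast, map_natCast]
    push_cast
    ring
  unfold Pool.Agent.TH894.NE.mean
  rw [sum_congr rfl fun n _ => h1 n, Pool.Agent.Y57.FD.HM.sum_box p (fun u : Fin (m * d) → ZMod p => G (w + Φ u))]
  have h2 := sum_surj Φ hsurj (fun v => G (w + v))
  have h3 : ∑ v : Fin m → F, G (w + v) = ∑ v : Fin m → F, G v := Fintype.sum_equiv (Equiv.addLeft w) _ _ fun _ => rfl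
  rw [h3] at h2
  have h4 : (Fintype.card (Fin (m * d) → ZMod p) : ℝ) = (p : ℝ) ^ (m * d) := by
    rw [Fintype.card_pi_const, ZMod.card]
    push_cast
    rfl
  rw [h4] at h2
  have h5 : (0 : ℝ) < (p : ℝ) ^ (m * d) := by
    have : (0 : ℝ) < p := by exact_mod_cast hp.out.pos
    positivity
  have h6 : (0 : ℝ) < Fintype.card (Fin m → F) := by exact_mod_cast Fintype.card_pos
  rw [eq_div_iff h6.ne', one_div, mul_assoc, h2, inv_mul_cancel_left₀ h5.ne']

/-- the function is periodic -/
lemma per_red {m d : ℕ} (p : ℕ) [CharP F p] (π : O →+* F) (b : Fin d → O) (N : Fin m → Fin d → ℤ)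
    (n : Fin (m * d) → ℕ) (i : Fin m) :
    π (elt b (fun i j => N i j + n (finProdFinEquiv (i, j))) i) =
      π (elt b (fun i j => N i j + (n (finProdFinEquiv (i, j)) % p : ℕ)) i) := by
  unfold elt
  rw [map_sum, map_sum]
  refine sum_congr rfl fun j _ => ?_
  rw [map_mul, map_mul, map_intCast, map_intCast]
  congr 1
  rw [Int.cast_add, Int.cast_add, Int.cast_natCast, Int.cast_natCast]
  congr 1
  have h := Nat.mod_add_div (n (finProdFinEquiv (i, j))) p
  conv_lhs => rw [← h]
  rw [Nat.cast_add, Nat.cast_mul, CharP.cast_eq_zero F p, zero_mul, add_zero]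

end

end Q282.NF
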