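import Pool.Agent.Q282.NF.LawNF
import Pool.Agent.Q282.BP.Sieve

/-!
# The sieve over a number field
-/

set_option autoImplicit false

namespace Q282.NF

open Finset NumberField IsDedekindDomain
open Pool.Agent.H921R2.TatePole (below deg nm nm_eq)
open Pool.Agent.TH894.NE (Per mean)

lemma exists_above (K : Type) [Field K] [NumberField K] (p : Nat.Primes) : ∃ v : HeightOneSpectrum (𝓞 K), below v = p := by
  have hne : Ideal.span {(((p : ℕ) : ℕ) : 𝓞 K)} ≠ ⊤ := by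
    intro h
    have h1 := congrArg Ideal.absNorm h
    rw [Ideal.absNorm_span_natCast, RingOfIntegers.rank, Ideal.absNorm_top] at h1
    have h2 : Module.finrank ℚ K ≠ 0 := Module.finrank_pos.ne'
    have h3 := (Nat.pow_eq_one.1 h1).resolve_right h2
    exact p.prop.one_lt.ne' h3
  obtain ⟨M, hM, hle⟩ := Ideal.exists_le_maximal _ hne
  have hmem : (((p : ℕ) : ℕ) : 𝓞 K) ∈ M := hle (Ideal.mem_span_singleton_self _)
  have hbot : M ≠ ⊥ := by
    rintro rfl
    rw [Ideal.mem_bot] at hmem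
    exact p.prop.ne_zero (by exact_mod_cast hmem)
  exact ⟨⟨M, hM.isPrime, hbot⟩, Pool.Agent.H921R2.TatePole.below_eq_of_mem hmem⟩

open Classical in
/-- the sieve -/
theorem sieve_nf (K : Type) [Field K] [NumberField K] (r : ℕ) (A : ℝ) (hA : 0 < A) : ∃ C : ℝ, 0 ≤ C ∧
    ∀ R : ∀ (F : Type) [Field F], (Fin (r + 3) → F) → Prop,
    (∀ (F : Type) [Field F] [Fintype F], ringChar F ≠ 2 → 7 ≤ Fintype.card F →
      (((univ : Finset (Fin (r + 3) → F)).filter (R F)).card : ℝ) ≤ 15 / 16 * Fintype.card (Fin (r + 3) → F)) →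
    ∀ (b : Fin (Module.finrank ℚ K) → 𝓞 K), (∀ x : 𝓞 K, ∃ a : Fin (Module.finrank ℚ K) → ℤ, x = ∑ j, (a j : 𝓞 K) * b j) →
    ∀ (T : ℝ) (X₀ : ℕ), 16 ≤ X₀ → (X₀ : ℝ) ≤ T → ∀ (N : Fin (r + 3) → Fin (Module.finrank ℚ K) → ℤ)
    (L : Fin (r + 3) → Fin (Module.finrank ℚ K) → ℕ), (∀ i j, T ≤ L i j) →
    ∀ E : Finset (Fin (r + 3) → Fin (Module.finrank ℚ K) → ℤ), E ⊆ box N L →
    (∀ n ∈ E, ∀ (F : Type) [Field F] (π : 𝓞 K →+* F), R F (fun i => π (combine b n i))) →
    (E.card : ℝ) ≤ C * (∏ i, ∏ j, (L i j : ℝ)) * (Real.log (Real.log X₀)) ^ (-A) := by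
  obtain ⟨D, hD⟩ : ∃ D : ℕ, D = Module.finrank ℚ K := ⟨_, rfl⟩
  rw [← hD]
  obtain ⟨C, hC, h⟩ := BP.sieve ((r + 3) * D) A hA
  refine ⟨C, hC, ?_⟩
  intro R hR b hb T X₀ hX₀ hXT N L hL E hE hER
  have hex : ∀ p : ℕ, ∃ v : HeightOneSpectrum (𝓞 K), p.Prime → (below v : ℕ) = p := by
    intro p
    by_cases hp : p.Prime
    · obtain ⟨v, hv⟩ := exists_above K ⟨p, hp⟩
      exact ⟨v, fun _ => by rw [hv]⟩
    · obtain ⟨v, -⟩ := exists_above K ⟨2, Nat.prime_two⟩
      exact ⟨v, fun h => absurd h hp⟩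
  choose vv hvv using hex
  -- the residue field over `p`
  have hres : ∀ p : ℕ, p.Prime → 7 ≤ p → (2 : 𝓞 K) ∉ (vv p).asIdeal := by
    intro p hp h7 h2
    have h3 : (((2 : ℕ) : ℤ) : 𝓞 K) ∈ (vv p).asIdeal := by exact_mod_cast h2
    rw [Pool.Agent.H921R2.TatePole.int_mem_iff, hvv p hp] at h3
    have h4 : p ∣ 2 := by exact_mod_cast h3
    have := Nat.le_of_dvd (by norm_num) h4
    omega
  have hfield : ∀ v : HeightOneSpectrum (𝓞 K), ∃ (F : Type) (_ : Field F) (_ : Fintype F) (π : 𝓞 K →+* F),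
      Function.Surjective π ∧ ((2 : 𝓞 K) ∉ v.asIdeal → ringChar F ≠ 2) ∧ CharP F (below v : ℕ) ∧
      Fintype.card F = Ideal.absNorm v.asIdeal := by
    intro v
    by_cases h2 : (2 : 𝓞 K) ∉ v.asIdeal
    · obtain ⟨F, i1, i2, _, π, hπ, hF, hch, hcard, -⟩ := hv_eq v h2
      exact ⟨F, i1, i2, π, hπ, fun _ => hF, hch, hcard⟩
    · have hmax : v.asIdeal.IsMaximal := v.isPrime.isMaximal v.ne_bot
      let i1 : Field (𝓞 K ⧸ v.asIdeal) := Ideal.Quotient.field v.asIdeal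
      have hfin : Finite (𝓞 K ⧸ v.asIdeal) := Nat.finite_of_card_ne_zero (nm_pos v).ne'
      let i2 : Fintype (𝓞 K ⧸ v.asIdeal) := Fintype.ofFinite _
      refine ⟨𝓞 K ⧸ v.asIdeal, i1, i2, Ideal.Quotient.mk v.asIdeal, Ideal.Quotient.mk_surjective, fun h => absurd h h2, ?_, ?_⟩
      · have hp := (nm_eq v).2.2
        have h0 : (((below v : ℕ) : ℕ) : 𝓞 K ⧸ v.asIdeal) = 0 := by
          rw [← map_natCast (Ideal.Quotient.mk v.asIdeal)]
          exact Ideal.Quotient.eq_zero_iff_mem.2 hp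
        exact ringChar.of_eq (CharP.ringChar_of_prime_eq_zero (below v).prop h0)
      · rw [← Nat.card_eq_fintype_card]
        rfl
  choose F i1 i2 π hπ hF hch hcard using hfield
  obtain ⟨P, hP⟩ : ∃ P : ℕ → (Fin ((r + 3) * D) → ℕ) → Prop, ∀ (p : ℕ) n,
      P p n ↔ R (F (vv p)) (fun i => π (vv p) (elt b (fun i j => N i j + (n (finProdFinEquiv (i, j)) : ℤ)) i)) :=
    ⟨_, fun p n => Iff.rfl⟩
  obtain ⟨E', hE'⟩ : ∃ E' : Finset (Fin ((r + 3) * D) → ℕ), E' = (BP.bx (flat L)).filter fun n =>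
    (fun i j => N i j + (n (finProdFinEquiv (i, j)) : ℤ)) ∈ E := ⟨_, rfl⟩
  have hcardE : E.card = E'.card := by
    rw [hE', ← box_card_filter N L (fun t => t ∈ E), filter_mem_eq_inter, inter_eq_right.2 hE]
  rw [hcardE, ← prod_flat]
  refine h P ?_ ?_ T X₀ hX₀ hXT (flat L) (fun k => hL _ _) E' (by rw [hE']; exact filter_subset _ _) ?_
  · intro p hp _ n
    rw [hP p, hP p]
    have e : (fun i => π (vv p) (elt b (fun i j => N i j + (n (finProdFinEquiv (i, j)) : ℤ)) i)) =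
        fun i => π (vv p) (elt b (fun i j => N i j + (((fun i => n i % p) (finProdFinEquiv (i, j)) : ℕ) : ℤ)) i) := by
      funext i
      have hc : CharP (F (vv p)) p := by
        have := hch (vv p)
        rw [hvv p hp] at this
        exact this
      exact per_red p (π (vv p)) b N n i
    rw [e]
  · intro p hp h7
    have hc : CharP (F (vv p)) p := by
      have := hch (vv p)
      rw [hvv p hp] at this
      exact this
    have : Fact p.Prime := ⟨hp⟩
    have h1 := mean_red p (π (vv p)) (hπ _) b hb N (fun t => if R (F (vv p)) t then (1 : ℝ) else 0)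
    have h2 : (fun n : Fin ((r + 3) * D) → ℕ => if P p n then (1 : ℝ) else 0) = fun n =>
        if R (F (vv p)) (fun i => π (vv p) (elt b (fun i j => N i j + (n (finProdFinEquiv (i, j)) : ℤ)) i)) then (1 : ℝ) else 0 := by
      funext n
      have := hP p n
      by_cases h3 : P p n
      · rw [if_pos h3, if_pos (this.1 h3)]
      · rw [if_neg h3, if_neg (fun h4 => h3 (this.2 h4))]
    rw [h2, h1, ← sum_filter, sum_const, nsmul_eq_mul, mul_one]
    have h3 : 7 ≤ Fintype.card (F (vv p)) := by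
      rw [hcard, norm_eq, hvv p hp]
      exact h7.trans (Nat.le_self_pow (nm_eq (vv p)).2.1.ne' p)
    have h4 := hR (F (vv p)) (hF _ (hres p hp h7)) h3
    rw [div_le_iff₀ (by exact_mod_cast Fintype.card_pos)]
    exact h4
  · intro n hn p hp _
    rw [hE', mem_filter] at hn
    rw [hP p]
    exact hER _ hn.2 (F (vv p)) (π (vv p))

end Q282.NF
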