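import Pool.Agent.Q282.NF.Val

/-!
# The logarithm of the product as a sum over the rational primes
-/

set_option autoImplicit false

namespace Q282.NF

open Finset NumberField IsDedekindDomain
open Pool.Agent.H921R2.TatePole (below deg nm nm_eq)

/-- the integral part of the root -/
def rt (f X : ℕ) : ℕ := Nat.findGreatest (fun y => y ^ f ≤ X) X

lemma le_rt {f X y : ℕ} (hf : 1 ≤ f) : y ≤ rt f X ↔ y ^ f ≤ X := by
  constructor
  · intro h
    have h1 : (rt f X) ^ f ≤ X := Nat.findGreatest_spec (P := fun y => y ^ f ≤ X) (m := 0) (Nat.zero_le _) (by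
      rw [zero_pow (by omega)]
      exact Nat.zero_le _)
    exact (Nat.pow_le_pow_left h f).trans h1
  · intro h
    exact Nat.le_findGreatest ((Nat.le_self_pow (by omega) y).trans h) h

variable {K : Type} [Field K] [NumberField K]

lemma deg_le (v : HeightOneSpectrum (𝓞 K)) : deg v ≤ Module.finrank ℚ K := by
  obtain ⟨h1, h2, h3⟩ := nm_eq v
  have hdvd : v.asIdeal ∣ Ideal.span {(((below v : ℕ) : ℕ) : 𝓞 K)} := by
    rw [Ideal.dvd_iff_le, Ideal.span_singleton_le_iff_mem]
    exact h3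
  have h4 := map_dvd Ideal.absNorm hdvd
  rw [Ideal.absNorm_span_natCast, RingOfIntegers.rank] at h4
  have h5 : (below v : ℕ) ^ deg v ∣ (below v : ℕ) ^ Module.finrank ℚ K := by
    rw [← h1]
    exact h4
  exact (Nat.pow_dvd_pow_iff_le_right (below v).prop.one_lt).1 h5

lemma norm_eq (v : HeightOneSpectrum (𝓞 K)) : Ideal.absNorm v.asIdeal = (below v : ℕ) ^ deg v := (nm_eq v).1

lemma fin_le (X : ℕ) : {v : HeightOneSpectrum (𝓞 K) | Ideal.absNorm v.asIdeal ≤ X}.Finite := by
  have h1 : ({I : Ideal (𝓞 K) | Ideal.absNorm I ≤ X}).Finite := Ideal.finite_setOfPred_absNorm_le X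
  refine Set.Finite.of_finite_image (f := fun v : HeightOneSpectrum (𝓞 K) => v.asIdeal) (h1.subset ?_) ?_
  · rintro _ ⟨v, hv, rfl⟩
    exact hv
  · intro v _ w _ h
    exact HeightOneSpectrum.ext h

/-- the values at the primes of degree `f` over `p` -/
noncomputable def fib (f : ℕ) (p : Nat.Primes) (C : 𝓞 K × 𝓞 K × 𝓞 K) : ℝ :=
  ∑ v : {v : HeightOneSpectrum (𝓞 K) // below v = p}, if deg v.1 = f then hv v.1 C else 0

/-- the values at the primes of degree `f` over `p` -/
noncomputable def hd (f p : ℕ) (C : 𝓞 K × 𝓞 K × 𝓞 K) : ℝ := if hp : p.Prime then fib f ⟨p, hp⟩ C else 0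

lemma log_product (C : 𝓞 K × 𝓞 K × 𝓞 K) (X : ℕ) :
    Real.log (product C X) = ∑ f ∈ Icc 1 (Module.finrank ℚ K), ∑ p ∈ BP.PP (rt f X), hd f p C := by
  classical
  obtain ⟨S, hS⟩ : ∃ S : Finset (HeightOneSpectrum (𝓞 K)), S = (fin_le (K := K) X).toFinset := ⟨_, rfl⟩
  have hmem : ∀ v, v ∈ S ↔ Ideal.absNorm v.asIdeal ≤ X := by
    intro v
    rw [hS, Set.Finite.mem_toFinset, Set.mem_ofPred_eq]
  have h1 : product C X = ∏ v ∈ S.filter (Good C), ((points C v : ℝ) + 1) / Ideal.absNorm v.asIdeal := by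
    unfold product
    refine finprod_mem_eq_prod_of_inter_mulSupport_eq _ ?_
    congr 1
    ext v
    rw [Set.mem_ofPred_eq, mem_coe, mem_filter, hmem]
    exact and_comm
  have h2 : Real.log (product C X) = ∑ v ∈ S, hv v C := by
    rw [h1, Real.log_prod, sum_filter]
    · refine sum_congr rfl fun v _ => ?_
      unfold hv
      rfl
    · intro v _
      have : (0 : ℝ) < Ideal.absNorm v.asIdeal := by exact_mod_cast nm_pos v
      positivity
  have h3' : ∀ (f : ℕ) (p : Nat.Primes), (p : ℕ) ^ f ≤ X →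
      fib f p C = ∑ v ∈ S, if deg v = f ∧ below v = p then hv v C else 0 := by
    intro f p hpX
    unfold fib
    rw [← sum_filter, ← sum_filter]
    refine sum_bij (fun v _ => v.1) ?_ ?_ ?_ ?_
    · rintro ⟨v, hv⟩ h
      rw [mem_filter] at h ⊢
      refine ⟨?_, h.2, hv⟩
      have h5 : deg v = f := h.2
      rw [hmem, norm_eq, hv, h5]
      exact hpX
    · rintro ⟨v, _⟩ _ ⟨w, _⟩ _ h
      exact Subtype.ext h
    · intro v hv
      rw [mem_filter] at hv
      refine ⟨⟨v, hv.2.2⟩, ?_, rfl⟩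
      rw [mem_filter]
      exact ⟨mem_univ _, hv.2.1⟩
    · intro v _
      rfl
  have h3 : ∀ f p : ℕ, 1 ≤ f → p ∈ BP.PP (rt f X) → hd f p C = ∑ v ∈ S, if deg v = f ∧ (below v : ℕ) = p then hv v C else 0 := by
    intro f p hf hp
    have hpp : p.Prime := (mem_filter.1 hp).2
    have hpX : p ^ f ≤ X := (le_rt hf).1 (mem_Icc.1 (mem_filter.1 hp).1).2
    unfold hd
    rw [dif_pos hpp, h3' f ⟨p, hpp⟩ hpX]
    refine sum_congr rfl fun v _ => ?_
    have h5 : below v = ⟨p, hpp⟩ ↔ (below v : ℕ) = p := ⟨fun h => by rw [h], fun h => Subtype.ext h⟩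
    simp only [h5]
  rw [h2, sum_congr rfl fun f hf => sum_congr rfl fun p hp => h3 f p (mem_Icc.1 hf).1 hp]
  have h4 : ∀ f ∈ Icc 1 (Module.finrank ℚ K), ∑ p ∈ BP.PP (rt f X), ∑ v ∈ S, (if deg v = f ∧ (below v : ℕ) = p then hv v C else 0) =
      ∑ v ∈ S, if deg v = f then hv v C else 0 := by
    intro f hf
    rw [sum_comm]
    refine sum_congr rfl fun v hv => ?_
    by_cases hdf : deg v = f
    · rw [if_pos hdf, sum_eq_single (below v : ℕ)]
      · rw [if_pos ⟨hdf, rfl⟩]
      · intro p _ hne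
        rw [if_neg]
        rintro ⟨-, h⟩
        exact hne h.symm
      · intro h
        exfalso
        apply h
        have h5 : (below v : ℕ) ^ f ≤ X := by
          have := (hmem v).1 hv
          rw [norm_eq, hdf] at this
          exact this
        unfold BP.PP
        rw [mem_filter, mem_Icc]
        exact ⟨⟨(below v).prop.one_lt.le, (le_rt (mem_Icc.1 hf).1).2 h5⟩, (below v).prop⟩
    · rw [if_neg hdf]
      refine sum_eq_zero fun p _ => ?_
      rw [if_neg]
      rintro ⟨h, -⟩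
      exact hdf h
  rw [sum_congr rfl h4, sum_comm]
  refine sum_congr rfl fun v _ => ?_
  rw [sum_ite_eq, if_pos]
  rw [mem_Icc]
  exact ⟨(nm_eq v).2.1, deg_le v⟩

end Q282.NF
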