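import Pool.Agent.Q282.NF.LocF
import Pool.Agent.Q282.NF.Red
import Pool.Agent.Q282.NF.Defs
import Pool.Agent.H474R2.GE.HomsUpper

/-!
# The local values at the primes of a number field
-/

set_option autoImplicit false

namespace Q282.NF

open Finset NumberField IsDedekindDomain
open Pool.Agent.H921R2.TatePole (below deg nm nm_eq)
open Pool.Agent.TH894.NE (Per mean)

variable {K : Type} [Field K] [NumberField K]

lemma disc_eq {R : Type} [CommRing R] (C : R × R × R) : disc C = BP.dis C := rfl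

lemma family_eq {R : Type} [CommRing R] (r : ℕ) (t : Fin (r + 3) → R) : family r t = BP.fam r t := by
  match r, t with
  | 0, t => rfl
  | 1, t => rfl
  | r + 2, t => rfl

/-- the image of a triple -/
def mapC {R S : Type} [CommRing R] [CommRing S] (π : R →+* S) (C : R × R × R) : S × S × S := (π C.1, π C.2.1, π C.2.2)

lemma mapC_fam {R S : Type} [CommRing R] [CommRing S] (π : R →+* S) (r : ℕ) (t : Fin (r + 3) → R) :
    mapC π (BP.fam r t) = BP.fam r (fun i => π (t i)) := by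
  match r, t with
  | 0, t => rfl
  | 1, t =>
    unfold mapC BP.fam
    simp
  | r + 2, t =>
    unfold mapC BP.fam
    simp only [map_sub, map_add, map_mul, map_pow, map_ofNat]

lemma mapC_dis {R S : Type} [CommRing R] [CommRing S] (π : R →+* S) (C : R × R × R) :
    BP.dis (mapC π C) = π (BP.dis C) := by
  unfold mapC BP.dis
  simp only [map_sub, map_add, map_mul, map_pow, map_ofNat]

open Classical in
/-- the summand of `log P(X)` -/
noncomputable def hv (v : HeightOneSpectrum (𝓞 K)) (C : 𝓞 K × 𝓞 K × 𝓞 K) : ℝ :=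
  if Good C v then Real.log (((points C v : ℝ) + 1) / Ideal.absNorm v.asIdeal) else 0

lemma hv_two (v : HeightOneSpectrum (𝓞 K)) (h2 : (2 : 𝓞 K) ∈ v.asIdeal) (C : 𝓞 K × 𝓞 K × 𝓞 K) : hv v C = 0 := by
  classical
  unfold hv
  rw [if_neg]
  intro h
  exact h (Ideal.mul_mem_right _ _ h2)

lemma nm_pos (v : HeightOneSpectrum (𝓞 K)) : 0 < Ideal.absNorm v.asIdeal := by
  have := Pool.Agent.H921R2.TatePole.two_le_nm v
  unfold Pool.Agent.H921R2.TatePole.nm at this
  omega

/-- the residue field -/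
lemma hv_eq (v : HeightOneSpectrum (𝓞 K)) (h2 : (2 : 𝓞 K) ∉ v.asIdeal) :
    ∃ (F : Type) (_ : Field F) (_ : Fintype F) (_ : DecidableEq F) (π : 𝓞 K →+* F), Function.Surjective π ∧ ringChar F ≠ 2 ∧
      CharP F (below v : ℕ) ∧ Fintype.card F = Ideal.absNorm v.asIdeal ∧ ∀ C, hv v C = locF (mapC π C) := by
  classical
  have hmax : v.asIdeal.IsMaximal := v.isPrime.isMaximal v.ne_bot
  let _ : Field (𝓞 K ⧸ v.asIdeal) := Ideal.Quotient.field v.asIdeal
  have hfin : Finite (𝓞 K ⧸ v.asIdeal) := Nat.finite_of_card_ne_zero (nm_pos v).ne'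
  let _ : Fintype (𝓞 K ⧸ v.asIdeal) := Fintype.ofFinite _
  have hcard : Fintype.card (𝓞 K ⧸ v.asIdeal) = Ideal.absNorm v.asIdeal := by
    rw [← Nat.card_eq_fintype_card]
    rfl
  have hchar : CharP (𝓞 K ⧸ v.asIdeal) (below v : ℕ) := by
    have hp := (nm_eq v).2.2
    have h0 : (((below v : ℕ) : ℕ) : 𝓞 K ⧸ v.asIdeal) = 0 := by
      rw [← map_natCast (Ideal.Quotient.mk v.asIdeal)]
      exact Ideal.Quotient.eq_zero_iff_mem.2 hp
    exact ringChar.of_eq (CharP.ringChar_of_prime_eq_zero (below v).prop h0)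
  have hchar2 : ringChar (𝓞 K ⧸ v.asIdeal) ≠ 2 := by
    intro h
    apply h2
    rw [← Ideal.Quotient.eq_zero_iff_mem]
    have h3 : ((2 : ℕ) : 𝓞 K ⧸ v.asIdeal) = 0 := by
      rw [← h]
      exact ringChar.Nat.cast_ringChar
    rw [map_ofNat]
    exact_mod_cast h3
  refine ⟨𝓞 K ⧸ v.asIdeal, inferInstance, inferInstance, Classical.decEq _, Ideal.Quotient.mk v.asIdeal,
    Ideal.Quotient.mk_surjective, hchar2, hchar, hcard, fun C => ?_⟩
  have hgood : Good C v ↔ ¬ BP.dis (mapC (Ideal.Quotient.mk v.asIdeal) C) = 0 := by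
    unfold Good
    rw [mapC_dis, Ideal.Quotient.eq_zero_iff_mem, disc_eq]
    constructor
    · intro h h3
      exact h (Ideal.mul_mem_left _ _ h3)
    · intro h h3
      rcases v.isPrime.mem_or_mem h3 with h4 | h4
      · exact h2 h4
      · exact h h4
  have hq0 : (0 : ℝ) < Fintype.card (𝓞 K ⧸ v.asIdeal) := by exact_mod_cast Fintype.card_pos
  have hpts : (points C v : ℝ) = Fintype.card (𝓞 K ⧸ v.asIdeal) + BP.SS (mapC (Ideal.Quotient.mk v.asIdeal) C) := by
    unfold points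
    exact card_affine hchar2 (fun x => x ^ 3 + (Ideal.Quotient.mk v.asIdeal) C.1 * x ^ 2 +
      (Ideal.Quotient.mk v.asIdeal) C.2.1 * x + (Ideal.Quotient.mk v.asIdeal) C.2.2)
  unfold hv locF
  by_cases hg : Good C v
  · rw [if_pos hg, if_neg (hgood.1 hg), hpts, ← hcard]
    congr 1
    field_simp
    ring
  · rw [if_neg hg, if_pos (not_not.1 fun h => hg (hgood.2 h))]

lemma hv_le (v : HeightOneSpectrum (𝓞 K)) (C : 𝓞 K × 𝓞 K × 𝓞 K) : |hv v C| ≤ 6 / Real.sqrt (Ideal.absNorm v.asIdeal) := by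
  by_cases h2 : (2 : 𝓞 K) ∈ v.asIdeal
  · rw [hv_two v h2, abs_zero]
    positivity
  · obtain ⟨F, _, _, _, π, hπ, hF, hch, hcard, hval⟩ := hv_eq v h2
    rw [hval, ← hcard]
    exact locF_le hF _

/-- the value is periodic in the coordinates -/
lemma hv_per (r d : ℕ) (b : Fin d → 𝓞 K) (N : Fin (r + 3) → Fin d → ℤ) (v : HeightOneSpectrum (𝓞 K)) :
    Per (below v : ℕ) (fun n : Fin ((r + 3) * d) → ℕ => hv v (family r (combine b (fun i j => N i j + n (finProdFinEquiv (i, j)))))) := by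
  intro n
  show hv v _ = hv v _
  by_cases h2 : (2 : 𝓞 K) ∈ v.asIdeal
  · rw [hv_two v h2, hv_two v h2]
  · obtain ⟨F, _, _, _, π, hπ, hF, hch, hcard, hval⟩ := hv_eq v h2
    rw [hval, hval, family_eq, family_eq, mapC_fam, mapC_fam]
    congr 2
    funext i
    exact per_red (below v : ℕ) π b N n i

/-- the local means -/
theorem hv_mean (r : ℕ) (hr : r ≤ 2) : ∃ C : ℝ, 0 ≤ C ∧ ∀ (K : Type) [Field K] [NumberField K] (v : HeightOneSpectrum (𝓞 K)),
    5 ≤ (below v : ℕ) → ∀ (d : ℕ) (b : Fin d → 𝓞 K), (∀ x : 𝓞 K, ∃ a : Fin d → ℤ, x = ∑ j, (a j : 𝓞 K) * b j) →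
    ∀ N : Fin (r + 3) → Fin d → ℤ,
    |mean ((r + 3) * d) (below v : ℕ) (fun n => hv v (family r (combine b (fun i j => N i j + n (finProdFinEquiv (i, j)))))) -
      (r + 1 / 2) / Ideal.absNorm v.asIdeal| ≤ C / (Ideal.absNorm v.asIdeal : ℝ) ^ (3 / 2 : ℝ) := by
  obtain ⟨C, hC0, hC⟩ := loc_mean r hr
  refine ⟨C, hC0, ?_⟩
  intro K _ _ v h5 d b hb N
  have hnot : ∀ m : ℕ, 0 < m → (∀ p : ℕ, p.Prime → p ∣ m → p < 5) → (m : 𝓞 K) ∉ v.asIdeal := by
    intro m hm hpm h
    have h1 : (((m : ℕ) : ℤ) : 𝓞 K) ∈ v.asIdeal := by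
      rw [Int.cast_natCast]
      exact h
    rw [Pool.Agent.H921R2.TatePole.int_mem_iff] at h1
    have h3 : (below v : ℕ) ∣ m := by exact_mod_cast h1
    have := hpm _ (below v).prop h3
    omega
  have h2 : (2 : 𝓞 K) ∉ v.asIdeal := by
    have := hnot 2 (by norm_num) (fun p hp h => by
      have := Nat.le_of_dvd (by norm_num) h
      omega)
    exact_mod_cast this
  have h27 : (27 : 𝓞 K) ∉ v.asIdeal := by
    have := hnot 27 (by norm_num) (fun p hp h => by
      have h3 : p ∣ 3 ^ 3 := by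
        norm_num
        exact h
      have := (Nat.prime_dvd_prime_iff_eq hp Nat.prime_three).1 (hp.dvd_of_dvd_pow h3)
      omega)
    exact_mod_cast this
  obtain ⟨F, _, _, _, π, hπ, hF, hch, hcard, hval⟩ := hv_eq v h2
  have : Fact (below v : ℕ).Prime := ⟨(below v).prop⟩
  have h27F : (27 : F) ≠ 0 := by
    intro h
    have h3 : ((27 : ℕ) : F) = 0 := by exact_mod_cast h
    rw [CharP.cast_eq_zero_iff F (below v : ℕ)] at h3
    apply h27
    have h4 : (((27 : ℕ) : ℤ) : 𝓞 K) ∈ v.asIdeal := by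
      rw [Pool.Agent.H921R2.TatePole.int_mem_iff]
      exact_mod_cast h3
    exact_mod_cast h4
  have h1 := hC F hF h27F
  have h3 := mean_red (below v : ℕ) π hπ b hb N (fun t : Fin (r + 3) → F => locF (BP.fam r t))
  rw [← h3, hcard] at h1
  refine le_trans (le_of_eq ?_) h1
  congr 3
  funext n
  rw [hval, family_eq, mapC_fam]
  rfl

end Q282.NF
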